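import Pool.Agent.H38.EH.MEd
import Pool.Agent.H15.EH.A24

/-!
# Model energy of the truncated test functions, final form (MP_ff60c2_an, block A6)

`modelEnergy_A`, `modelEnergy_B`: the property `ModelEnergy` of helper24's definitions for the
two test functions.
-/

open MeasureTheory Set Filter Topology

set_option autoImplicit false

namespace Pool.Agent.H38.EH

open Pool.EH Pool.Agent.H49.EH
open Pool.Agent.H23.EH (d1 d2)
open Pool.Agent.H24.EH (yV En ModelEnergy FF Bp B1)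

lemma fderiv_two {F : ℝ → ℝ → ℝ} {l b fl fg : ℝ}
    (hF : DifferentiableAt ℝ (fun x : ℝ × ℝ => F x.1 x.2) (l, b))
    (hl : HasDerivAt (fun s => F s b) fl l) (hg : HasDerivAt (fun t => F l t) fg b) (u v : ℝ) :
    fderiv ℝ (fun x : ℝ × ℝ => F x.1 x.2) (l, b) (u, v) = u * fl + v * fg := by
  have h1 : fderiv ℝ (fun x : ℝ × ℝ => F x.1 x.2) (l, b) (1, 0) = fl :=
    d1_eq_of_hasDerivAt (q := (l, b)) hF hl
  have h2 : fderiv ℝ (fun x : ℝ × ℝ => F x.1 x.2) (l, b) (0, 1) = fg :=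
    d2_eq_of_hasDerivAt (q := (l, b)) hF hg
  have h3 : ((u, v) : ℝ × ℝ) = u • ((1, 0) : ℝ × ℝ) + v • ((0, 1) : ℝ × ℝ) := by
    ext <;> simp
  rw [h3, map_add, map_smul, map_smul, h1, h2, smul_eq_mul, smul_eq_mul]

lemma d12_FF {F : ℝ → ℝ → ℝ} {η l φ fl fg : ℝ} (hη : 0 < η) (h : Off l φ)
    (hF : DifferentiableAt ℝ (fun x : ℝ × ℝ => F x.1 x.2) (l, Bp η (gv l φ)))
    (hl : HasDerivAt (fun s => F s (Bp η (gv l φ))) fl l)
    (hg : HasDerivAt (fun t => F l t) fg (Bp η (gv l φ))) :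
    d1 (fun x => FF F η x.1 (yV x)) (l, φ) = fl + fg * B1 η (gv l φ) * gvl l φ ∧
    d2 (fun x => FF F η x.1 (yV x)) (l, φ) = fg * B1 η (gv l φ) * gvp l φ := by
  have hB := (Pool.Agent.H15.EH.Bp_props η hη).1
  rw [yV_eq]
  have hV : DifferentiableAt ℝ V (l, φ) := differentiableAt_V h
  have hBV : DifferentiableAt ℝ (fun x => Bp η (V x)) (l, φ) :=
    (hB _).differentiableAt.comp (l, φ) hV
  have hdiff : DifferentiableAt ℝ (fun x : ℝ × ℝ => FF F η x.1 (V x)) (l, φ) := by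
    have h1 : DifferentiableAt ℝ (fun x : ℝ × ℝ => ((x.1, Bp η (V x)) : ℝ × ℝ)) (l, φ) :=
      differentiableAt_fst.prodMk hBV
    exact DifferentiableAt.comp (l, φ) (f := fun x : ℝ × ℝ => ((x.1, Bp η (V x)) : ℝ × ℝ))
      (g := fun x : ℝ × ℝ => F x.1 x.2) hF h1
  constructor
  · apply d1_eq_of_hasDerivAt hdiff
    have h1 : HasDerivAt (fun s : ℝ => ((s, Bp η (gv s φ)) : ℝ × ℝ))
        (1, B1 η (gv l φ) * gvl l φ) l :=
      (hasDerivAt_id l).prodMk
        (HasDerivAt.comp (h₂ := Bp η) (h := fun s => gv s φ) l (hB (gv l φ)) (hasDerivAt_gv_l h))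
    have h2 := HasFDerivAt.comp_hasDerivAt l (f := fun s : ℝ => ((s, Bp η (gv s φ)) : ℝ × ℝ))
      hF.hasFDerivAt h1
    rw [fderiv_two hF hl hg] at h2
    refine HasDerivAt.congr_deriv (f := fun s => F s (Bp η (gv s φ))) h2 ?_
    ring
  · apply d2_eq_of_hasDerivAt hdiff
    have h1 : HasDerivAt (fun s : ℝ => ((l, Bp η (gv l s)) : ℝ × ℝ))
        (0, B1 η (gv l φ) * gvp l φ) φ :=
      (hasDerivAt_const φ l).prodMk
        (HasDerivAt.comp (h₂ := Bp η) (h := fun s => gv l s) φ (hB (gv l φ)) (hasDerivAt_gv_phi h))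
    have h2 := HasFDerivAt.comp_hasDerivAt φ (f := fun s : ℝ => ((l, Bp η (gv l s)) : ℝ × ℝ))
      hF.hasFDerivAt h1
    rw [fderiv_two hF hl hg] at h2
    refine HasDerivAt.congr_deriv (f := fun s => F l (Bp η (gv l s))) h2 ?_
    ring

lemma cosh_le_two {b : ℝ} (h0 : 0 ≤ b) (h1 : b ≤ 1) : Real.cosh b ≤ 2 := by
  rw [Real.cosh_eq]
  have h2 : Real.exp b ≤ Real.exp 1 := Real.exp_le_exp.2 h1
  have h3 : Real.exp (-b) ≤ Real.exp 0 := Real.exp_le_exp.2 (by linarith)
  rw [Real.exp_zero] at h3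
  have h4 := Real.exp_one_lt_d9
  linarith

/-- the abstract assembly. -/
theorem model_aux {p a b : ℝ} (hp : 0 < p) (hp1 : p < 1) (hab : a < b) {F Fl Fg : ℝ → ℝ → ℝ}
    (hF : ∀ l g, 0 < g → DifferentiableAt ℝ (fun x : ℝ × ℝ => F x.1 x.2) (l, g))
    (hl : ∀ l g, 0 < g → HasDerivAt (fun s => F s g) (Fl l g) l)
    (hg : ∀ l g, 0 < g → HasDerivAt (fun t => F l t) (Fg l g) g)
    (hmain : ∀ l φ, Off l φ → eden (Fl l (gv l φ)) (Fg l (gv l φ)) 1 l φ = dens a b l φ)
    (hthin : ∀ l φ t b', Off l φ → gv l φ ≤ t → Real.cosh t ≤ 2 → 0 ≤ b' → b' ≤ 1 →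
      eden (Fl l t) (Fg l t) b' l φ ≤ Ku p * dsum p l φ)
    (L ε : ℝ) (hε : 0 < ε) : ∃ η₀, 0 < η₀ ∧ ∀ η, 0 < η → η ≤ η₀ → ∀ l₁, l₁ ≤ L →
      En (FF F η) yV l₁ L ≤
        ε + 2 * Real.pi * Real.log (4 * (Real.exp L + |a|) / (b - a) + 3) := by
  have hsum : IntegrableOn (fun q : ℝ × ℝ => Ku p * dsum p q.1 q.2)
      (Iic L ×ˢ Ioc 0 (2 * Real.pi)) := by
    have i1 := dens_integrableOn (a := 0) (b := 4 * p) (by positivity) L
    have i2 := dens_integrableOn (a := 4 * p) (b := 4) (by linarith) L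
    have i3 := dens_integrableOn (a := 0) (b := 4) (by norm_num) L
    exact ((i1.add i2).add i3).const_mul (Ku p)
  have hsum0 : ∀ q : ℝ × ℝ, 0 ≤ Ku p * dsum p q.1 q.2 := fun q =>
    mul_nonneg (Ku_pos hp hp1).le (dsum_nonneg p q.1 q.2)
  obtain ⟨η1, hη1, hthin0⟩ := thin_zero L _ hsum hsum0 hε
  refine ⟨min (η1 / 2) (1 / 12), by positivity, fun η h0 hη l₁ hl₁ => ?_⟩
  have e1 : η < η1 := lt_of_le_of_lt (hη.trans (min_le_left _ _)) (by linarith)
  have e2 : η ≤ 1 / 12 := hη.trans (min_le_right _ _)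
  obtain ⟨hBd, -, -, -, hbig, hB1, hBle⟩ := Pool.Agent.H15.EH.Bp_props η h0
  have hthinI := thin_integrable hsum η
  have hmainI := dens_integrableOn hab L
  have key := iter_le (I := fun l φ => d1 (fun x => FF F η x.1 (yV x)) (l, φ) ^ 2 +
      d2 (fun x => FF F η x.1 (yV x)) (l, φ) ^ 2)
    (G := fun q => (if gv q.1 q.2 < 3 * η then Ku p * dsum p q.1 q.2 else 0) +
      dens a b q.1 q.2) (L := L) (hthinI.add hmainI)
    (fun q => by
      have := dens_nonneg a b q.1 q.2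
      have := hsum0 q
      split_ifs <;> linarith)
    (fun l φ => by positivity)
    (fun l φ h1 h2 => by
      have hoff : Off l φ := by
        right
        have h4 : Real.cos φ ≠ 1 := by
          intro h
          rw [Real.cos_eq_one_iff_of_lt_of_lt (by linarith [Real.pi_pos]) h2] at h
          linarith
        exact lt_of_le_of_ne (Real.cos_le_one _) h4
      have hgp := gv_pos hoff
      have hb0 : 0 < Bp η (gv l φ) := lt_of_lt_of_le hgp (hBle _).2.1
      have hd := d12_FF h0 hoff (hF l _ hb0) (hl l _ hb0) (hg l _ hb0)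
      have hE : d1 (fun x => FF F η x.1 (yV x)) (l, φ) ^ 2 +
          d2 (fun x => FF F η x.1 (yV x)) (l, φ) ^ 2 =
          eden (Fl l (Bp η (gv l φ))) (Fg l (Bp η (gv l φ))) (B1 η (gv l φ)) l φ := by
        rw [hd.1, hd.2]; rfl
      show d1 (fun x => FF F η x.1 (yV x)) (l, φ) ^ 2 +
          d2 (fun x => FF F η x.1 (yV x)) (l, φ) ^ 2 ≤ _
      rw [hE]
      show _ ≤ (if gv l φ < 3 * η then Ku p * dsum p l φ else 0) + dens a b l φ
      by_cases hc : gv l φ < 3 * η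
      · rw [if_pos hc]
        have hdn := dens_nonneg a b l φ
        have hb1 : Bp η (gv l φ) ≤ 1 := by
          have h5 := (hBle (gv l φ)).2.2
          have h6 : max (gv l φ) (2 * η) ≤ 3 * η := max_le hc.le (by linarith)
          linarith
        have := hthin l φ (Bp η (gv l φ)) (B1 η (gv l φ)) hoff (hBle _).2.1
          (cosh_le_two hb0.le hb1) (hB1 _).1 (hB1 _).2.1
        linarith
      · rw [if_neg hc, zero_add]
        push Not at hc
        obtain ⟨h5, h6, -⟩ := hbig _ hc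
        rw [h5, h6]
        exact (hmain l φ hoff).le)
    hl₁
  have hEn : En (FF F η) yV l₁ L = ∫ l in l₁..L, ∫ φ in (0 : ℝ)..2 * Real.pi,
      (d1 (fun x => FF F η x.1 (yV x)) (l, φ) ^ 2 +
        d2 (fun x => FF F η x.1 (yV x)) (l, φ) ^ 2) := rfl
  rw [hEn]
  refine key.trans ?_
  rw [integral_add hthinI hmainI]
  exact add_le_add (hthin0 η h0 e1) (dens_integral_le hab L)

lemma log_bound {x c L : ℝ} (hc : 0 < c) (h : 0 < x)
    (hx : x ≤ Real.exp L / c * (1 + 4 * Real.exp (-L))) :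
    Real.log x ≤ L - Real.log c + 4 * Real.exp (-L) := by
  have h1 : 0 < 1 + 4 * Real.exp (-L) := by positivity
  have h2 := Real.log_le_log h hx
  rw [Real.log_mul (div_pos (Real.exp_pos L) hc).ne' h1.ne',
    Real.log_div (Real.exp_pos L).ne' hc.ne', Real.log_exp] at h2
  have h3 := Real.log_le_sub_one_of_pos h1
  linarith

/-- **Model energy of `F_A`.** -/
theorem modelEnergy_A {p : ℝ} (hp : 0 < p) (hp1 : p < 1) :
    ModelEnergy (-Real.log p) (FA p) := by
  refine ⟨8 * Real.pi, fun L _ ε hε => ?_⟩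
  obtain ⟨η₀, h0, h⟩ := model_aux (a := 0) (b := 4 * p) hp hp1 (by positivity)
    (F := FA p) (Fl := FAl p) (Fg := FAg p)
    (fun l g hg => (contDiffAt_FA (n := 1) (x := (l, g)) hp hp1 hg).differentiableAt (by norm_num))
    (fun l g hg => hasDerivAt_FA_l hp hp1 l hg) (fun l g hg => hasDerivAt_FA_g hp hp1 l hg)
    (fun l φ ho => eden_main_A hp hp1 ho)
    (fun l φ t b' ho h1 h2 h3 h4 => thinU_A hp hp1 ho h1 h2 h3 h4)
    L (2 * Real.pi * ε) (by positivity)
  refine ⟨η₀, h0, fun η h1 h2 l₁ h3 => (h η h1 h2 l₁ h3).trans ?_⟩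
  have hb : Real.log (4 * (Real.exp L + |(0 : ℝ)|) / (4 * p - 0) + 3) ≤
      L - Real.log p + 4 * Real.exp (-L) := by
    rw [abs_zero]
    apply log_bound hp (by rw [sub_zero]; positivity)
    have he : Real.exp L * Real.exp (-L) = 1 := by rw [← Real.exp_add]; simp
    have : Real.exp L / p * (1 + 4 * Real.exp (-L)) = Real.exp L / p + 4 / p := by
      rw [mul_add, mul_one, div_mul_eq_mul_div, mul_left_comm, he, mul_one]
    rw [this]
    have h4 : 4 * (Real.exp L + 0) / (4 * p - 0) = Real.exp L / p := by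
      rw [add_zero, sub_zero, mul_div_mul_left _ _ (by norm_num)]
    rw [h4]
    have h5 : 3 ≤ 4 / p := by
      rw [le_div_iff₀ hp]; linarith
    linarith
  have hpi := Real.pi_pos
  have := mul_le_mul_of_nonneg_left hb (by positivity : 0 ≤ 2 * Real.pi)
  have e : 2 * Real.pi * (L + -Real.log p + ε) + 8 * Real.pi * Real.exp (-L) =
      2 * Real.pi * ε + 2 * Real.pi * (L - Real.log p + 4 * Real.exp (-L)) := by ring
  rw [e]
  linarith

/-- **Model energy of `F_B`.** -/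
theorem modelEnergy_B {p : ℝ} (hp : 0 < p) (hp1 : p < 1) :
    ModelEnergy (-Real.log (1 - p)) (FB p) := by
  have hq : 0 < 1 - p := by linarith
  refine ⟨8 * Real.pi, fun L _ ε hε => ?_⟩
  obtain ⟨η₀, h0, h⟩ := model_aux (a := 4 * p) (b := 4) hp hp1 (by linarith)
    (F := FB p) (Fl := FBl p) (Fg := FBg p)
    (fun l g hg => (contDiffAt_FB (n := 1) (x := (l, g)) hp hp1 hg).differentiableAt (by norm_num))
    (fun l g hg => hasDerivAt_FB_l hp hp1 l hg) (fun l g hg => hasDerivAt_FB_g hp hp1 l hg)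
    (fun l φ ho => eden_main_B hp hp1 ho)
    (fun l φ t b' ho h1 h2 h3 h4 => thinU_B hp hp1 ho h1 h2 h3 h4)
    L (2 * Real.pi * ε) (by positivity)
  refine ⟨η₀, h0, fun η h1 h2 l₁ h3 => (h η h1 h2 l₁ h3).trans ?_⟩
  have hb : Real.log (4 * (Real.exp L + |4 * p|) / (4 - 4 * p) + 3) ≤
      L - Real.log (1 - p) + 4 * Real.exp (-L) := by
    rw [abs_of_pos (by positivity)]
    have h4 : 4 * (Real.exp L + 4 * p) / (4 - 4 * p) + 3 =
        (Real.exp L + 4 * p + 3 * (1 - p)) / (1 - p) := by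
      have : (4 - 4 * p) = 4 * (1 - p) := by ring
      rw [this, mul_div_mul_left _ _ (by norm_num)]
      field_simp
    rw [h4]
    apply log_bound hq (div_pos (by positivity) hq)
    have he : Real.exp L * Real.exp (-L) = 1 := by rw [← Real.exp_add]; simp
    have : Real.exp L / (1 - p) * (1 + 4 * Real.exp (-L)) = (Real.exp L + 4) / (1 - p) := by
      rw [div_mul_eq_mul_div, mul_add, mul_one, mul_left_comm, he, mul_one]
    rw [this]
    apply div_le_div_of_nonneg_right _ hq.le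
    linarith
  have hpi := Real.pi_pos
  have := mul_le_mul_of_nonneg_left hb (by positivity : 0 ≤ 2 * Real.pi)
  have e : 2 * Real.pi * (L + -Real.log (1 - p) + ε) + 8 * Real.pi * Real.exp (-L) =
      2 * Real.pi * ε + 2 * Real.pi * (L - Real.log (1 - p) + 4 * Real.exp (-L)) := by ring
  rw [e]
  linarith

end Pool.Agent.H38.EH
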