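import Mathlib

/-!
# Model energy (MP_ff60c2_an)

The Dirichlet energy of the Green function of a segment `[a, b]` over a disc, by the Joukowski map.
-/

open MeasureTheory Set Metric Filter Topology
open scoped ENNReal

set_option autoImplicit false

namespace Pool.Agent.H38.EH

lemma det_restrict (c : ℂ) :
    ((ContinuousLinearMap.toSpanSingleton ℂ c).restrictScalars ℝ : ℂ →L[ℝ] ℂ).det = ‖c‖ ^ 2 := by
  have : ((ContinuousLinearMap.toSpanSingleton ℂ c).restrictScalars ℝ : ℂ →L[ℝ] ℂ).det =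
      Algebra.norm ℝ c := by
    rw [Algebra.norm_apply, ContinuousLinearMap.det]
    congr 1
    ext z
    simp [mul_comm]
  rw [this, Algebra.norm_complex_apply, Complex.normSq_eq_norm_sq]

/-- The integrand: `|∇ g|²` for the Green function `g` of `[a, b]`. -/
noncomputable def ker (a b : ℝ) (z : ℂ) : ℝ := 1 / (‖z - a‖ * ‖z - b‖)

/-- The Joukowski map onto the complement of `[a, a + 4 s]`. -/
noncomputable def jou (a s : ℝ) (w : ℂ) : ℂ := a + s * (w + 2 + w⁻¹)

lemma jou_sub_left (a s : ℝ) {w : ℂ} (hw : w ≠ 0) : jou a s w - a = s * (w + 1) ^ 2 / w := by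
  unfold jou
  field_simp
  ring

lemma jou_sub_right (a s : ℝ) {w : ℂ} (hw : w ≠ 0) :
    jou a s w - ((a + 4 * s : ℝ) : ℂ) = s * (w - 1) ^ 2 / w := by
  unfold jou
  push_cast
  field_simp
  ring

lemma hasDerivAt_jou (a s : ℝ) {w : ℂ} (hw : w ≠ 0) :
    HasDerivAt (jou a s) (s * (1 + -(w ^ 2)⁻¹)) w := by
  unfold jou
  exact ((((hasDerivAt_id w).add_const 2).add (hasDerivAt_inv hw)).const_mul (s : ℂ)).const_add _

lemma norm_deriv_sq {a s : ℝ} (hs : 0 < s) {w : ℂ} (hw : 1 < ‖w‖) :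
    ‖(s : ℂ) * (1 + -(w ^ 2)⁻¹)‖ ^ 2 * ker a (a + 4 * s) (jou a s w) = 1 / ‖w‖ ^ 2 := by
  have hw0 : w ≠ 0 := by
    rintro rfl
    simp at hw
    linarith
  have h1 : w + 1 ≠ 0 := by
    intro h
    have : w = -1 := by linear_combination h
    rw [this] at hw
    simp at hw
  have h2 : w - 1 ≠ 0 := by
    intro h
    have : w = 1 := by linear_combination h
    rw [this] at hw
    simp at hw
  have e1 : (s : ℂ) * (1 + -(w ^ 2)⁻¹) = s * (w + 1) * (w - 1) / w ^ 2 := by
    field_simp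
    ring
  unfold ker
  rw [jou_sub_left a s hw0, jou_sub_right a s hw0, e1]
  simp only [norm_mul, norm_div, norm_pow, Complex.norm_real, Real.norm_eq_abs, abs_of_pos hs]
  have p0 : 0 < ‖w‖ := norm_pos_iff.2 hw0
  have p1 : 0 < ‖w + 1‖ := norm_pos_iff.2 h1
  have p2 : 0 < ‖w - 1‖ := norm_pos_iff.2 h2
  field_simp

lemma injOn_jou {a s : ℝ} (hs : 0 < s) : InjOn (jou a s) {w : ℂ | 1 < ‖w‖} := by
  intro w hw v hv h
  have hw' : 1 < ‖w‖ := hw
  have hv' : 1 < ‖v‖ := hv
  have hw0 : w ≠ 0 := by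
    rintro rfl
    simp at hw'
    linarith
  have hv0 : v ≠ 0 := by
    rintro rfl
    simp at hv'
    linarith
  have hs' : (s : ℂ) ≠ 0 := by exact_mod_cast hs.ne'
  unfold jou at h
  have h1 : w + w⁻¹ = v + v⁻¹ := by
    have h2 := mul_left_cancel₀ hs' (add_left_cancel h)
    linear_combination h2
  have h3 : (w - v) * (w * v - 1) = 0 := by
    have h4 : (w + w⁻¹) * (w * v) = (v + v⁻¹) * (w * v) := by rw [h1]
    have e1 : (w + w⁻¹) * (w * v) = w ^ 2 * v + v := by
      field_simp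
    have e2 : (v + v⁻¹) * (w * v) = v ^ 2 * w + w := by
      field_simp
    rw [e1, e2] at h4
    linear_combination h4
  rcases mul_eq_zero.1 h3 with h4 | h4
  · linear_combination h4
  · exfalso
    have h5 : w * v = 1 := by linear_combination h4
    have h6 : ‖w‖ * ‖v‖ = 1 := by rw [← norm_mul, h5, norm_one]
    nlinarith

/-- Every point off the segment is hit. -/
lemma exists_jou {a s : ℝ} (hs : 0 < s) {z : ℂ}
    (hz : ¬ (z.im = 0 ∧ a ≤ z.re ∧ z.re ≤ a + 4 * s)) : ∃ w : ℂ, 1 < ‖w‖ ∧ jou a s w = z := by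
  have hs' : (s : ℂ) ≠ 0 := by exact_mod_cast hs.ne'
  -- roots of `w² - 2 u w + 1`
  set u : ℂ := (z - a) / (2 * s) - 1 with hu
  obtain ⟨t, ht⟩ : ∃ t : ℂ, t ^ 2 = u ^ 2 - 1 := by
    obtain ⟨t, ht⟩ := IsAlgClosed.exists_pow_nat_eq (u ^ 2 - 1) (n := 2) (by norm_num)
    exact ⟨t, ht⟩
  have hprod : (u + t) * (u - t) = 1 := by linear_combination -ht
  have key : ∀ w v : ℂ, w * v = 1 → w + v = 2 * u → jou a s w = z := by
    intro w v h1 h2
    have hw0 : w ≠ 0 := by
      rintro rfl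
      simp at h1
    have hv : w⁻¹ = v := by
      field_simp
      linear_combination -h1
    unfold jou
    rw [hv]
    have : w + 2 + v = (z - a) / s := by
      have : w + 2 + v = 2 * u + 2 := by linear_combination h2
      rw [this, hu]
      field_simp
      ring
    rw [this]
    field_simp
    ring
  have hnorm : ‖u + t‖ * ‖u - t‖ = 1 := by rw [← norm_mul, hprod, norm_one]
  rcases lt_trichotomy ‖u + t‖ 1 with h | h | h
  · refine ⟨u - t, ?_, key (u - t) (u + t) (by linear_combination hprod) (by ring)⟩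
    by_contra hcon
    push Not at hcon
    have p1 : 0 ≤ ‖u - t‖ := norm_nonneg _
    have p2 : 0 ≤ ‖u + t‖ := norm_nonneg _
    nlinarith
  · exfalso
    apply hz
    -- `u + t` on the unit circle, `u - t` its conjugate
    have hc : u - t = (starRingEnd ℂ) (u + t) := by
      have h5 : (u + t) * (starRingEnd ℂ) (u + t) = 1 := by
        rw [Complex.mul_conj, Complex.normSq_eq_norm_sq, h]
        norm_num
      have h6 : u + t ≠ 0 := by
        intro h0
        rw [h0] at h
        simp at h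
      exact mul_left_cancel₀ h6 (by rw [hprod, h5])
    have hre : 2 * u = ((2 * (u + t).re : ℝ) : ℂ) := by
      have : 2 * u = (u + t) + (u - t) := by ring
      rw [this, hc, Complex.add_conj]
    have hur : u = (((u + t).re : ℝ) : ℂ) := by
      have h7 : (2 : ℂ) * u = 2 * (((u + t).re : ℝ) : ℂ) := by
        rw [hre]
        push_cast
        ring
      exact mul_left_cancel₀ two_ne_zero h7
    have hzz : z = ((a + 2 * s * ((u + t).re + 1) : ℝ) : ℂ) := by
      have : z = a + 2 * s * (u + 1) := by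
        rw [hu]
        field_simp
        ring
      rw [this]
      conv_lhs => rw [hur]
      push_cast
      ring
    have hb : |(u + t).re| ≤ 1 := (Complex.abs_re_le_norm _).trans h.le
    have hb' := abs_le.1 hb
    have him : z.im = 0 := by
      rw [hzz]
      exact Complex.ofReal_im _
    have hre' : z.re = a + 2 * s * ((u + t).re + 1) := by
      conv_lhs => rw [hzz]
      exact Complex.ofReal_re _
    refine ⟨him, ?_, ?_⟩
    · rw [hre']
      nlinarith [hb'.1]
    · rw [hre']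
      nlinarith [hb'.2]
  · exact ⟨u + t, h, key (u + t) (u - t) hprod (by ring)⟩

/-- The annulus `1 < |w| < ρ`. -/
lemma annulus_lintegral {ρ : ℝ} (hρ : 1 < ρ) :
    ∫⁻ w in {w : ℂ | 1 < ‖w‖ ∧ ‖w‖ < ρ}, ENNReal.ofReal (1 / ‖w‖ ^ 2) =
      ENNReal.ofReal (2 * Real.pi * Real.log ρ) := by
  have hm : MeasurableSet {w : ℂ | 1 < ‖w‖ ∧ ‖w‖ < ρ} :=
    (measurableSet_lt measurable_const measurable_norm).inter
      (measurableSet_lt measurable_norm measurable_const)
  rw [← lintegral_indicator hm, ← Complex.lintegral_comp_polarCoord_symm]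
  have h1 : ∀ p ∈ polarCoord.target, ENNReal.ofReal p.1 •
      ({w : ℂ | 1 < ‖w‖ ∧ ‖w‖ < ρ}.indicator (fun w => ENNReal.ofReal (1 / ‖w‖ ^ 2))
        (Complex.polarCoord.symm p)) =
      (Ioo (1 : ℝ) ρ).indicator (fun r => ENNReal.ofReal (1 / r)) p.1 := by
    intro p hp
    have hp1 : 0 < p.1 := by
      rw [polarCoord_target] at hp
      exact hp.1
    have hn : ‖Complex.polarCoord.symm p‖ = p.1 := by
      rw [Complex.norm_polarCoord_symm, abs_of_pos hp1]
    by_cases h : 1 < p.1 ∧ p.1 < ρ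
    · have hmem : Complex.polarCoord.symm p ∈ {w : ℂ | 1 < ‖w‖ ∧ ‖w‖ < ρ} := by
        refine ⟨?_, ?_⟩
        · rw [hn]
          exact h.1
        · rw [hn]
          exact h.2
      rw [indicator_of_mem hmem, indicator_of_mem (by simpa using h), hn,
        smul_eq_mul, ← ENNReal.ofReal_mul hp1.le]
      congr 1
      field_simp
    · have hmem : Complex.polarCoord.symm p ∉ {w : ℂ | 1 < ‖w‖ ∧ ‖w‖ < ρ} := by
        intro hh
        apply h
        have e1 : 1 < ‖Complex.polarCoord.symm p‖ := hh.1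
        have e2 : ‖Complex.polarCoord.symm p‖ < ρ := hh.2
        rw [hn] at e1 e2
        exact ⟨e1, e2⟩
      rw [indicator_of_notMem hmem, indicator_of_notMem (by simpa using h),
        smul_zero]
  rw [setLIntegral_congr_fun polarCoord.open_target.measurableSet h1, polarCoord_target,
    Measure.volume_eq_prod, setLIntegral_prod]
  · simp only [lintegral_const, MeasurableSet.univ, Measure.restrict_apply, univ_inter,
      Real.volume_Ioo]
    rw [lintegral_mul_const' _ _ ENNReal.ofReal_ne_top]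
    have h2 : ∫⁻ r in Ioi (0 : ℝ), (Ioo (1 : ℝ) ρ).indicator (fun r => ENNReal.ofReal (1 / r)) r =
        ENNReal.ofReal (Real.log ρ) := by
      rw [lintegral_indicator measurableSet_Ioo, Measure.restrict_restrict measurableSet_Ioo]
      have h3 : Ioo (1 : ℝ) ρ ∩ Ioi 0 = Ioo 1 ρ := by
        apply inter_eq_left.2
        intro x hx
        exact lt_trans one_pos hx.1
      rw [h3]
      have h4 : IntervalIntegrable (fun r : ℝ => 1 / r) volume 1 ρ := by
        apply ContinuousOn.intervalIntegrable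
        rw [uIcc_of_le hρ.le]
        apply ContinuousOn.div continuousOn_const continuousOn_id
        intro x hx
        exact (lt_of_lt_of_le one_pos hx.1).ne'
      have h5 : ∫ r in (1 : ℝ)..ρ, 1 / r = Real.log ρ := by
        rw [integral_one_div_of_pos one_pos (by linarith)]
        simp
      rw [← h5, intervalIntegral.integral_of_le hρ.le, integral_Ioc_eq_integral_Ioo,
        ofReal_integral_eq_lintegral_ofReal]
      · exact (h4.1).mono_set Ioo_subset_Ioc_self
      · filter_upwards [self_mem_ae_restrict measurableSet_Ioo] with x hx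
        exact one_div_nonneg.2 (lt_trans one_pos hx.1).le
    rw [h2, ← ENNReal.ofReal_mul (Real.log_nonneg hρ.le)]
    congr 1
    ring
  · apply Measurable.aemeasurable
    exact ((Measurable.indicator (by fun_prop) measurableSet_Ioo)).comp measurable_fst

/-- The image of the annulus. -/
lemma image_lintegral {a s ρ : ℝ} (hs : 0 < s) (hρ : 1 < ρ) :
    ∫⁻ z in jou a s '' {w : ℂ | 1 < ‖w‖ ∧ ‖w‖ < ρ}, ENNReal.ofReal (ker a (a + 4 * s) z) =
      ENNReal.ofReal (2 * Real.pi * Real.log ρ) := by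
  have hm : MeasurableSet {w : ℂ | 1 < ‖w‖ ∧ ‖w‖ < ρ} :=
    (measurableSet_lt measurable_const measurable_norm).inter
      (measurableSet_lt measurable_norm measurable_const)
  have h0 : ∀ w ∈ {w : ℂ | 1 < ‖w‖ ∧ ‖w‖ < ρ}, w ≠ 0 := by
    rintro w hw rfl
    have := hw.1
    simp at this
    linarith
  have hder : ∀ w ∈ {w : ℂ | 1 < ‖w‖ ∧ ‖w‖ < ρ}, HasFDerivWithinAt (jou a s)
      ((ContinuousLinearMap.toSpanSingleton ℂ ((s : ℂ) * (1 + -(w ^ 2)⁻¹))).restrictScalars ℝ)
      {w : ℂ | 1 < ‖w‖ ∧ ‖w‖ < ρ} w := by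
    intro w hw
    exact ((hasDerivAt_jou a s (h0 w hw)).hasFDerivAt.restrictScalars ℝ).hasFDerivWithinAt
  rw [lintegral_image_eq_lintegral_abs_det_fderiv_mul volume hm hder
    ((injOn_jou hs).mono fun w hw => hw.1), ← annulus_lintegral hρ]
  apply setLIntegral_congr_fun hm
  intro w hw
  show ENNReal.ofReal _ * _ = _
  rw [det_restrict, abs_of_nonneg (by positivity), ← ENNReal.ofReal_mul (by positivity),
    norm_deriv_sq hs hw.1]

lemma volume_segment (a b : ℝ) : volume {z : ℂ | z.im = 0 ∧ a ≤ z.re ∧ z.re ≤ b} = 0 := by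
  have hm : MeasurableSet {z : ℂ | z.im = 0 ∧ a ≤ z.re ∧ z.re ≤ b} := by
    apply IsClosed.measurableSet
    exact (isClosed_eq Complex.continuous_im continuous_const).inter
      ((isClosed_le continuous_const Complex.continuous_re).inter
        (isClosed_le Complex.continuous_re continuous_const))
  rw [← (Complex.volume_preserving_equiv_real_prod.symm).measure_preimage hm.nullMeasurableSet]
  refine measure_mono_null (t := univ ×ˢ {(0 : ℝ)}) ?_ ?_
  · rintro ⟨x, y⟩ h
    have : y = 0 := h.1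
    simp [this]
  · rw [Measure.volume_eq_prod, Measure.prod_prod]
    simp

/-- **Model energy**, main part, on a disc. -/
theorem ball_lintegral {a b R : ℝ} {c : ℂ} (hab : a < b) (hR : 0 < R) :
    ∫⁻ z in ball c R, ENNReal.ofReal (1 / (‖z - a‖ * ‖z - b‖)) ≤
      ENNReal.ofReal (2 * Real.pi * Real.log (4 * (R + ‖c - a‖) / (b - a) + 3)) := by
  set s : ℝ := (b - a) / 4 with hs
  have hs0 : 0 < s := by
    rw [hs]
    linarith
  have hb : b = a + 4 * s := by
    rw [hs]
    ring
  set ρ : ℝ := 4 * (R + ‖c - a‖) / (b - a) + 3 with hρ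
  have hρs : ρ = (R + ‖c - a‖) / s + 3 := by
    rw [hρ, hs]
    field_simp
  have hρ1 : 1 < ρ := by
    have : 0 ≤ (R + ‖c - a‖) / s := by positivity
    rw [hρs]
    linarith
  have hsub : ball c R ⊆ jou a s '' {w : ℂ | 1 < ‖w‖ ∧ ‖w‖ < ρ} ∪
      {z : ℂ | z.im = 0 ∧ a ≤ z.re ∧ z.re ≤ b} := by
    intro z hz
    by_cases hz2 : z.im = 0 ∧ a ≤ z.re ∧ z.re ≤ b
    · exact Or.inr hz2
    · left
      rw [hb] at hz2
      obtain ⟨w, hw, hwz⟩ := exists_jou hs0 hz2
      refine ⟨w, ⟨hw, ?_⟩, hwz⟩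
      have h1 : ‖z - a‖ < R + ‖c - a‖ := by
        have : ‖z - a‖ ≤ ‖z - c‖ + ‖c - a‖ := by
          have : z - a = (z - c) + (c - a) := by ring
          rw [this]
          exact norm_add_le _ _
        have h2 : ‖z - c‖ < R := by simpa [dist_eq_norm] using hz
        linarith
      have hw0 : w ≠ 0 := by
        rintro rfl
        simp at hw
        linarith
      have h3 : z - a = s * (w + 2 + w⁻¹) := by
        rw [← hwz]
        unfold jou
        ring
      have h4 : s * (‖w‖ - 3) ≤ ‖z - a‖ := by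
        rw [h3, norm_mul, Complex.norm_real, Real.norm_eq_abs, abs_of_pos hs0]
        apply mul_le_mul_of_nonneg_left _ hs0.le
        have h5 : ‖w‖ ≤ ‖w + 2 + w⁻¹‖ + ‖(2 : ℂ)‖ + ‖w⁻¹‖ := by
          have : w = (w + 2 + w⁻¹) - 2 - w⁻¹ := by ring
          calc ‖w‖ = ‖(w + 2 + w⁻¹) - 2 - w⁻¹‖ := by rw [← this]
            _ ≤ ‖(w + 2 + w⁻¹) - 2‖ + ‖w⁻¹‖ := norm_sub_le _ _
            _ ≤ ‖w + 2 + w⁻¹‖ + ‖(2 : ℂ)‖ + ‖w⁻¹‖ := by
              gcongr
              exact norm_sub_le _ _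
        have h6 : ‖w⁻¹‖ ≤ 1 := by
          rw [norm_inv]
          exact inv_le_one_of_one_le₀ hw.le
        have h7 : ‖(2 : ℂ)‖ = 2 := by simp
        linarith
      rw [hρs]
      have h8 : s * (‖w‖ - 3) < R + ‖c - a‖ := h4.trans_lt h1
      have h9 : ‖w‖ - 3 < (R + ‖c - a‖) / s := by
        rw [lt_div_iff₀ hs0]
        linarith
      linarith
  calc ∫⁻ z in ball c R, ENNReal.ofReal (1 / (‖z - a‖ * ‖z - b‖))
      ≤ ∫⁻ z in jou a s '' {w : ℂ | 1 < ‖w‖ ∧ ‖w‖ < ρ} ∪
          {z : ℂ | z.im = 0 ∧ a ≤ z.re ∧ z.re ≤ b},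
          ENNReal.ofReal (1 / (‖z - a‖ * ‖z - b‖)) := lintegral_mono_set hsub
    _ ≤ (∫⁻ z in jou a s '' {w : ℂ | 1 < ‖w‖ ∧ ‖w‖ < ρ},
          ENNReal.ofReal (1 / (‖z - a‖ * ‖z - b‖))) +
        ∫⁻ z in {z : ℂ | z.im = 0 ∧ a ≤ z.re ∧ z.re ≤ b},
          ENNReal.ofReal (1 / (‖z - a‖ * ‖z - b‖)) := lintegral_union_le _ _ _
    _ = ENNReal.ofReal (2 * Real.pi * Real.log ρ) := by
        rw [setLIntegral_measure_zero _ _ (volume_segment a b), add_zero,
          ← image_lintegral (a := a) hs0 hρ1]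
        simp only [ker, hb]

end Pool.Agent.H38.EH
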