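import Pool.Agent.H38.EH.ME

/-!
# Model energy in the coordinates `z = e^(l + i φ)` (MP_ff60c2_an)
-/

open MeasureTheory Set Metric Filter Topology
open scoped ENNReal

set_option autoImplicit false

namespace Pool.Agent.H38.EH

/-- The point `e^(l + i φ)`. -/
noncomputable def pt (l φ : ℝ) : ℂ := Complex.exp (l + φ * Complex.I)

lemma norm_pt (l φ : ℝ) : ‖pt l φ‖ = Real.exp l := by
  simp [pt, Complex.norm_exp]

lemma continuous_pt : Continuous fun q : ℝ × ℝ => pt q.1 q.2 := by
  unfold pt
  fun_prop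

/-- The integrand of the energy in the coordinates `(l, φ)`. -/
noncomputable def dens (a b l φ : ℝ) : ℝ :=
  Real.exp (2 * l) / (‖pt l φ - a‖ * ‖pt l φ - b‖)

lemma dens_nonneg (a b l φ : ℝ) : 0 ≤ dens a b l φ := by
  unfold dens
  positivity

lemma measurable_dens (a b : ℝ) : Measurable fun q : ℝ × ℝ => dens a b q.1 q.2 := by
  unfold dens
  exact (by fun_prop : Measurable fun q : ℝ × ℝ => Real.exp (2 * q.1)).div
    ((continuous_pt.measurable.sub_const _).norm.mul (continuous_pt.measurable.sub_const _).norm)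

lemma injOn_exp_strip : InjOn Complex.exp {w : ℂ | 0 < w.im ∧ w.im < 2 * Real.pi} := by
  intro w hw v hv h
  obtain ⟨n, hn⟩ := Complex.exp_eq_exp_iff_exists_int.1 h
  have him : w.im = v.im + n * (2 * Real.pi) := by
    rw [hn]
    simp
  have hpi := Real.pi_pos
  have h1 : (n : ℝ) < 1 := by
    by_contra hc
    push Not at hc
    nlinarith [hw.1, hw.2, hv.1, hv.2]
  have h2 : (-1 : ℝ) < n := by
    by_contra hc
    push Not at hc
    nlinarith [hw.1, hw.2, hv.1, hv.2]
  have h3 : n = 0 := by
    have e1 : n < 1 := by exact_mod_cast h1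
    have e2 : -1 < n := by exact_mod_cast h2
    omega
  rw [hn, h3]
  simp

/-- Polar coordinates in logarithmic form, as an inequality for subsets of a ball. -/
lemma strip_lintegral_le (f : ℂ → ℝ≥0∞) (L : ℝ) :
    ∫⁻ q in Iic L ×ˢ Ioc 0 (2 * Real.pi), ENNReal.ofReal (Real.exp (2 * q.1)) * f (pt q.1 q.2) ≤
      ∫⁻ z in ball (0 : ℂ) (Real.exp L), f z := by
  set T : Set ℂ := {w : ℂ | w.re < L ∧ 0 < w.im ∧ w.im < 2 * Real.pi} with hT
  have hTm : MeasurableSet T := by
    apply IsOpen.measurableSet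
    exact (isOpen_lt Complex.continuous_re continuous_const).inter
      ((isOpen_lt continuous_const Complex.continuous_im).inter
        (isOpen_lt Complex.continuous_im continuous_const))
  have hset : (volume : Measure (ℝ × ℝ)).restrict (Iic L ×ˢ Ioc 0 (2 * Real.pi)) =
      (volume : Measure (ℝ × ℝ)).restrict (Iio L ×ˢ Ioo 0 (2 * Real.pi)) := by
    rw [Measure.volume_eq_prod, ← Measure.prod_restrict, ← Measure.prod_restrict,
      Measure.restrict_congr_set Iio_ae_eq_Iic.symm,
      Measure.restrict_congr_set (Ioo_ae_eq_Ioc (a := (0 : ℝ)) (b := 2 * Real.pi)).symm]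
  rw [hset]
  have hpre : Complex.measurableEquivRealProd.symm ⁻¹' T = Iio L ×ˢ Ioo 0 (2 * Real.pi) := by
    ext q
    rfl
  have h1 := (Complex.volume_preserving_equiv_real_prod.symm).setLIntegral_comp_preimage_emb
    Complex.measurableEquivRealProd.symm.measurableEmbedding
    (fun w => ENNReal.ofReal (Real.exp (2 * w.re)) * f (Complex.exp w)) T
  rw [hpre] at h1
  have h2 : ∫⁻ q in Iio L ×ˢ Ioo 0 (2 * Real.pi),
      ENNReal.ofReal (Real.exp (2 * q.1)) * f (pt q.1 q.2) =
      ∫⁻ w in T, ENNReal.ofReal (Real.exp (2 * w.re)) * f (Complex.exp w) := by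
    rw [← h1]
    apply lintegral_congr
    intro q
    have e1 : Complex.measurableEquivRealProd.symm q = (q.1 : ℂ) + q.2 * Complex.I := by
      apply Complex.ext <;> simp [Complex.measurableEquivRealProd_symm_apply]
    have e2 : (Complex.measurableEquivRealProd.symm q).re = q.1 := by
      rw [e1]
      simp
    rw [e2, e1]
    rfl
  rw [h2]
  have hder : ∀ w ∈ T, HasFDerivWithinAt Complex.exp
      ((ContinuousLinearMap.toSpanSingleton ℂ (Complex.exp w)).restrictScalars ℝ) T w := by
    intro w hw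
    exact ((Complex.hasDerivAt_exp w).hasFDerivAt.restrictScalars ℝ).hasFDerivWithinAt
  have h3 := lintegral_image_eq_lintegral_abs_det_fderiv_mul volume hTm hder
    (injOn_exp_strip.mono fun w hw => hw.2) f
  have h4 : ∫⁻ w in T, ENNReal.ofReal (Real.exp (2 * w.re)) * f (Complex.exp w) =
      ∫⁻ z in Complex.exp '' T, f z := by
    rw [h3]
    apply setLIntegral_congr_fun hTm
    intro w hw
    show _ = ENNReal.ofReal _ * _
    rw [det_restrict, abs_of_nonneg (by positivity), Complex.norm_exp, ← Real.exp_nat_mul]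
    norm_num
  rw [h4]
  apply lintegral_mono_set
  rintro _ ⟨w, hw, rfl⟩
  simp only [mem_ball, dist_zero_right, Complex.norm_exp]
  exact Real.exp_lt_exp.2 hw.1

theorem strip_lintegral {a b : ℝ} (hab : a < b) (L : ℝ) :
    ∫⁻ q in Iic L ×ˢ Ioc 0 (2 * Real.pi), ENNReal.ofReal (dens a b q.1 q.2) ≤
      ENNReal.ofReal (2 * Real.pi * Real.log (4 * (Real.exp L + |a|) / (b - a) + 3)) := by
  have h1 := strip_lintegral_le (fun z => ENNReal.ofReal (1 / (‖z - a‖ * ‖z - b‖))) L
  have h2 := ball_lintegral (c := 0) hab (Real.exp_pos L)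
  have h3 : ‖(0 : ℂ) - a‖ = |a| := by simp
  rw [h3] at h2
  refine le_trans (le_of_eq ?_) (h1.trans h2)
  apply lintegral_congr
  intro q
  rw [← ENNReal.ofReal_mul (by positivity)]
  congr 1
  unfold dens
  rw [mul_one_div]

/-- **Model energy**: integrability. -/
theorem dens_integrableOn {a b : ℝ} (hab : a < b) (L : ℝ) :
    IntegrableOn (fun q : ℝ × ℝ => dens a b q.1 q.2) (Iic L ×ˢ Ioc 0 (2 * Real.pi)) := by
  refine ⟨(measurable_dens a b).aestronglyMeasurable, ?_⟩
  rw [hasFiniteIntegral_iff_ofReal (f := fun q : ℝ × ℝ => dens a b q.1 q.2)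
    (ae_of_all _ fun q => dens_nonneg a b q.1 q.2)]
  exact (strip_lintegral hab L).trans_lt ENNReal.ofReal_lt_top

/-- **Model energy**, main part, product form. -/
theorem dens_integral_le {a b : ℝ} (hab : a < b) (L : ℝ) :
    ∫ q in Iic L ×ˢ Ioc 0 (2 * Real.pi), dens a b q.1 q.2 ≤
      2 * Real.pi * Real.log (4 * (Real.exp L + |a|) / (b - a) + 3) := by
  have hρ : 1 ≤ 4 * (Real.exp L + |a|) / (b - a) + 3 := by
    have : 0 ≤ 4 * (Real.exp L + |a|) / (b - a) := by
      apply div_nonneg
      · positivity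
      · linarith
    linarith
  rw [integral_eq_lintegral_of_nonneg_ae (f := fun q : ℝ × ℝ => dens a b q.1 q.2)
    (ae_of_all _ fun q => dens_nonneg a b q.1 q.2) (measurable_dens a b).aestronglyMeasurable]
  have h := ENNReal.toReal_mono ENNReal.ofReal_ne_top (strip_lintegral hab L)
  rwa [ENNReal.toReal_ofReal
    (mul_nonneg (by positivity) (Real.log_nonneg hρ))] at h

/-- **Model energy**, main part, iterated form. -/
theorem dens_iter_le {a b : ℝ} (hab : a < b) (L : ℝ) :
    ∫ l in Iic L, ∫ φ in (0 : ℝ)..2 * Real.pi, dens a b l φ ≤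
      2 * Real.pi * Real.log (4 * (Real.exp L + |a|) / (b - a) + 3) := by
  have h1 := setIntegral_prod (μ := (volume : Measure ℝ)) (ν := (volume : Measure ℝ))
    (fun q : ℝ × ℝ => dens a b q.1 q.2) (s := Iic L) (t := Ioc 0 (2 * Real.pi))
    (by rw [← Measure.volume_eq_prod]; exact dens_integrableOn hab L)
  have h2 := dens_integral_le hab L
  rw [Measure.volume_eq_prod, h1] at h2
  refine le_trans (le_of_eq ?_) h2
  apply setIntegral_congr_fun measurableSet_Iic
  intro l _
  show ∫ φ in (0 : ℝ)..2 * Real.pi, dens a b l φ = ∫ φ in Ioc 0 (2 * Real.pi), dens a b l φ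
  rw [intervalIntegral.integral_of_le (by positivity)]

/-- **Model energy**, main part, on a rectangle. -/
theorem dens_rect_le {a b : ℝ} (hab : a < b) {l₁ l₂ : ℝ} (h12 : l₁ ≤ l₂) :
    ∫ l in l₁..l₂, ∫ φ in (0 : ℝ)..2 * Real.pi, dens a b l φ ≤
      2 * Real.pi * Real.log (4 * (Real.exp l₂ + |a|) / (b - a) + 3) := by
  refine le_trans ?_ (dens_iter_le hab l₂)
  rw [intervalIntegral.integral_of_le h12]
  apply setIntegral_mono_set
  · have := (dens_integrableOn hab l₂)
    rw [IntegrableOn, Measure.volume_eq_prod, ← Measure.prod_restrict] at this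
    have h3 := this.integral_prod_left
    refine h3.congr (ae_of_all _ fun l => ?_)
    show ∫ φ in Ioc 0 (2 * Real.pi), dens a b l φ = ∫ φ in (0 : ℝ)..2 * Real.pi, dens a b l φ
    rw [intervalIntegral.integral_of_le (by positivity)]
  · refine ae_of_all _ fun l => ?_
    show 0 ≤ ∫ φ in (0 : ℝ)..2 * Real.pi, dens a b l φ
    apply intervalIntegral.integral_nonneg (by positivity)
    intro φ _
    exact dens_nonneg a b l φ
  · exact ae_of_all _ fun x hx => hx.2

end Pool.Agent.H38.EH
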