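import Pool.Agent.H38.EH.MEb
import Pool.Agent.H49.EH.Mod1
import Pool.Agent.H10.EH.FA

/-!
# Model energy: the pointwise part (MP_ff60c2_an)
-/

open MeasureTheory Set Filter Topology

set_option autoImplicit false

namespace Pool.Agent.H38.EH

open Pool.EH Pool.Agent.H49.EH

/-! ### algebra of `F_A`, `F_B` -/

/-- the common identity: `ρ (X - C)² + (X - ρ) S² = R sh²`. -/
lemma key_A {p : ℝ} (hp : 0 < p) (hp1 : p < 1) (l : ℝ) {g : ℝ} (hg : 0 < g) :
    rh l * (Real.cosh (FA p l g) - Real.cosh g) ^ 2 +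
      (Real.cosh (FA p l g) - rh l) * Real.sinh g ^ 2 =
      RR p l g * Real.sinh (FA p l g) ^ 2 := by
  have h1 := RR_eq_A hp hp1 l hg
  have h2 := rel_A hp hp1 l hg
  have h3 := Real.cosh_sq (FA p l g)
  have h4 := Real.cosh_sq g
  rw [h1]
  linear_combination (-Real.cosh (FA p l g)) * h2 - rh l * h3 + (rh l) * h4

lemma key_B {p : ℝ} (hp : 0 < p) (hp1 : p < 1) (l : ℝ) {g : ℝ} (hg : 0 < g) :
    (Real.cosh g - rh l) * (Real.cosh (FB p l g) - Real.cosh g) ^ 2 +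
      (Real.cosh (FB p l g) - (Real.cosh g - rh l)) * Real.sinh g ^ 2 =
      RR p l g * Real.sinh (FB p l g) ^ 2 := by
  have h1 := RR_eq_B hp hp1 l hg
  have h2 := rel_B hp hp1 l hg
  have h3 := Real.cosh_sq (FB p l g)
  have h4 := Real.cosh_sq g
  rw [h1]
  linear_combination (-Real.cosh (FB p l g)) * h2 - (Real.cosh g - rh l) * h3 +
    (Real.cosh g - rh l) * h4

lemma FAl_sq_le {p : ℝ} (hp : 0 < p) (hp1 : p < 1) (l : ℝ) {g : ℝ} (hg : 0 < g) :
    FAl p l g ^ 2 ≤ rh l / RR p l g := by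
  have hk := key_A hp hp1 l hg
  have hR := RR_pos hp hp1 l hg
  have hs := sinh_FA_pos hp hp1 l hg
  have hr := rh_pos l
  have hX : rh l ≤ Real.cosh (FA p l g) := by
    rw [cosh_FA hp hp1 l hg, le_div_iff₀ hp]
    nlinarith
  have h1 : rh l * (Real.cosh (FA p l g) - Real.cosh g) ^ 2 ≤
      RR p l g * Real.sinh (FA p l g) ^ 2 := by
    have : 0 ≤ (Real.cosh (FA p l g) - rh l) * Real.sinh g ^ 2 :=
      mul_nonneg (by linarith) (sq_nonneg _)
    linarith
  unfold FAl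
  rw [div_pow, mul_pow, mul_pow, div_le_div_iff₀ (by positivity) hR]
  have h2 := mul_le_mul_of_nonneg_left h1 (mul_pos hr hR).le
  nlinarith [h2]

lemma FAg_sq_le {p : ℝ} (hp : 0 < p) (hp1 : p < 1) (l : ℝ) {g : ℝ} (hg : 0 < g) :
    FAg p l g ^ 2 ≤ p / (1 - p) * ((Real.cosh g - rh l) ^ 2 / (rh l * RR p l g)) := by
  have hk := key_A hp hp1 l hg
  have hR := RR_pos hp hp1 l hg
  have hs := sinh_FA_pos hp hp1 l hg
  have hr := rh_pos l
  have hq : 0 < 1 - p := by linarith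
  have hX : rh l * (1 - p) / p ≤ Real.cosh (FA p l g) - rh l := by
    rw [cosh_FA hp hp1 l hg, div_le_iff₀ hp, sub_mul, div_mul_cancel₀ _ hp.ne']
    nlinarith
  have h0 : rh l * (1 - p) / p * Real.sinh g ^ 2 ≤ RR p l g * Real.sinh (FA p l g) ^ 2 := by
    have e1 := mul_le_mul_of_nonneg_right hX (sq_nonneg (Real.sinh g))
    have : 0 ≤ rh l * (Real.cosh (FA p l g) - Real.cosh g) ^ 2 :=
      mul_nonneg hr.le (sq_nonneg _)
    linarith
  have h1 : (rh l * (1 - p)) * Real.sinh g ^ 2 ≤ p * (RR p l g * Real.sinh (FA p l g) ^ 2) := by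
    have := mul_le_mul_of_nonneg_left h0 hp.le
    calc (rh l * (1 - p)) * Real.sinh g ^ 2 = p * (rh l * (1 - p) / p * Real.sinh g ^ 2) := by
          field_simp
      _ ≤ _ := this
  unfold FAg
  rw [div_mul_div_comm, div_pow, div_le_div_iff₀ (by positivity) (by positivity), mul_pow, mul_pow]
  have h2 := mul_le_mul_of_nonneg_left h1
    (mul_nonneg hR.le (sq_nonneg (Real.cosh g - rh l)))
  nlinarith [h2]

lemma cosh_FB_ge {p : ℝ} (hp : 0 < p) (hp1 : p < 1) (l : ℝ) {g : ℝ} (hg : 0 < g)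
    (hC : rh l ≤ Real.cosh g) : Real.cosh g - rh l ≤ Real.cosh (FB p l g) := by
  have hR := RR_pos hp hp1 l hg
  have hq : 0 < 1 - p := by linarith
  rw [cosh_FB hp hp1 l hg, le_div_iff₀ hq]
  nlinarith

lemma FBl_sq_le {p : ℝ} (hp : 0 < p) (hp1 : p < 1) (l : ℝ) {g : ℝ} (hg : 0 < g)
    (hC : rh l < Real.cosh g) :
    FBl p l g ^ 2 ≤ rh l ^ 2 / (RR p l g * (Real.cosh g - rh l)) := by
  have hk := key_B hp hp1 l hg
  have hR := RR_pos hp hp1 l hg
  have hs := sinh_FB_pos hp hp1 l hg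
  have hr := rh_pos l
  have hσ : 0 < Real.cosh g - rh l := by linarith
  have hX := cosh_FB_ge hp hp1 l hg hC.le
  have h1 : (Real.cosh g - rh l) * (Real.cosh (FB p l g) - Real.cosh g) ^ 2 ≤
      RR p l g * Real.sinh (FB p l g) ^ 2 := by
    have : 0 ≤ (Real.cosh (FB p l g) - (Real.cosh g - rh l)) * Real.sinh g ^ 2 :=
      mul_nonneg (by linarith) (sq_nonneg _)
    linarith
  unfold FBl
  rw [div_pow, neg_sq, mul_pow, mul_pow, div_le_div_iff₀ (by positivity) (by positivity)]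
  have h2 := mul_le_mul_of_nonneg_left h1 (mul_nonneg (sq_nonneg (rh l)) hR.le)
  nlinarith [h2]

lemma FBg_sq_le {p : ℝ} (hp : 0 < p) (hp1 : p < 1) (l : ℝ) {g : ℝ} (hg : 0 < g)
    (hC : rh l < Real.cosh g) :
    FBg p l g ^ 2 ≤ 1 / (1 - p) * (1 + (Real.cosh g - rh l) / RR p l g) := by
  have hk := key_B hp hp1 l hg
  have hR := RR_pos hp hp1 l hg
  have hs := sinh_FB_pos hp hp1 l hg
  have hr := rh_pos l
  have hq : 0 < 1 - p := by linarith
  have hσ : 0 < Real.cosh g - rh l := by linarith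
  have hX := cosh_FB_ge hp hp1 l hg hC.le
  have hXe : (1 - p) * (Real.cosh (FB p l g) - (Real.cosh g - rh l)) =
      RR p l g + p * (Real.cosh g - rh l) := by
    have := RR_eq_B hp hp1 l hg
    linear_combination (-1) * this
  set X := Real.cosh (FB p l g) with hXd
  set σ := Real.cosh g - rh l with hσd
  have h1 : (X - σ) * Real.sinh g ^ 2 ≤ RR p l g * Real.sinh (FB p l g) ^ 2 := by
    have : 0 ≤ σ * (X - Real.cosh g) ^ 2 := mul_nonneg hσ.le (sq_nonneg _)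
    linarith
  have h3 : FBg p l g ^ 2 ≤ (X - σ) / RR p l g := by
    unfold FBg
    rw [div_pow, mul_pow, mul_pow, div_le_div_iff₀ (by positivity) hR]
    have e1 : Real.cosh (FB p l g) - Real.cosh g + rh l = X - σ := by rw [hXd, hσd]; ring
    rw [e1]
    have h2 := mul_le_mul_of_nonneg_left h1 (mul_nonneg hR.le (sub_nonneg.2 hX))
    nlinarith [h2]
  refine h3.trans ?_
  rw [div_le_iff₀ hR]
  have h4 : 1 / (1 - p) * (1 + σ / RR p l g) * RR p l g = 1 / (1 - p) * (RR p l g + σ) := by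
    field_simp
  rw [h4, div_mul_eq_mul_div, one_mul, le_div_iff₀ hq]
  nlinarith

/-! ### the geometric meaning of `R` on the model -/

lemma cosh_gv_sub (l φ : ℝ) : Real.cosh (gv l φ) - rh l = Dv l φ / 4 := by
  rw [cosh_gv]
  unfold Cv rh
  ring

lemma normSq_pt_sub (l φ a : ℝ) :
    ‖pt l φ - a‖ ^ 2 = Real.exp l ^ 2 - 2 * a * Real.exp l * Real.cos φ + a ^ 2 := by
  have h1 : pt l φ - a = ((Real.exp l * Real.cos φ - a : ℝ) : ℂ) +
      ((Real.exp l * Real.sin φ : ℝ) : ℂ) * Complex.I := by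
    unfold pt
    rw [Complex.exp_add, Complex.exp_mul_I]
    push_cast
    ring
  rw [h1, Complex.sq_norm, Complex.normSq_add_mul_I]
  have := Real.sin_sq_add_cos_sq φ
  linear_combination (Real.exp l ^ 2) * this

lemma norm_pt_sub_four (l φ : ℝ) : ‖pt l φ - (4 : ℝ)‖ = Dv l φ := by
  have h1 := normSq_pt_sub l φ 4
  have h2 := Dv_sq l φ
  have h3 : ‖pt l φ - (4 : ℝ)‖ ^ 2 = Dv l φ ^ 2 := by
    rw [h1, h2]; ring
  exact (pow_left_inj₀ (norm_nonneg _) (Dv_nonneg l φ) two_ne_zero).1 h3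

lemma norm_pt_sub_p {p : ℝ} (hp : 0 < p) (hp1 : p < 1) (l φ : ℝ) :
    ‖pt l φ - (4 * p : ℝ)‖ = 4 * RR p l (gv l φ) := by
  have h1 := normSq_pt_sub l φ (4 * p)
  have h2 := Dv_sq l φ
  have h4 := RR_sq' hp hp1 l (gv l φ)
  have h5 := cosh_gv_sub l φ
  have h6 : Real.cosh (gv l φ) = Dv l φ / 4 + rh l := by linarith
  have h7 : Real.exp l = 4 * rh l := by unfold rh; ring
  have h3 : ‖pt l φ - (4 * p : ℝ)‖ ^ 2 = (4 * RR p l (gv l φ)) ^ 2 := by
    rw [mul_pow, h4, h1, h6]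
    rw [h7] at h2 ⊢
    linear_combination (-p) * h2
  exact (pow_left_inj₀ (norm_nonneg _) (mul_nonneg (by norm_num) (Real.sqrt_nonneg _))
    two_ne_zero).1 h3

lemma dens_A {p : ℝ} (hp : 0 < p) (hp1 : p < 1) (l φ : ℝ) :
    dens 0 (4 * p) l φ = rh l / RR p l (gv l φ) := by
  unfold dens
  rw [norm_pt_sub_p hp hp1]
  have h0 : ‖pt l φ - ((0 : ℝ) : ℂ)‖ = Real.exp l := by
    rw [Complex.ofReal_zero, sub_zero, norm_pt]
  have h7 : Real.exp l = 4 * rh l := by unfold rh; ring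
  have h8 : Real.exp (2 * l) = (4 * rh l) ^ 2 := by
    rw [← h7, ← Real.exp_nat_mul]; norm_num
  have hr := rh_pos l
  rw [h0, h8, h7]
  by_cases hR : RR p l (gv l φ) = 0
  · rw [hR]; simp
  · field_simp
    try ring

lemma dens_B {p : ℝ} (hp : 0 < p) (hp1 : p < 1) (l φ : ℝ) :
    dens (4 * p) 4 l φ = rh l ^ 2 / (RR p l (gv l φ) * (Dv l φ / 4)) := by
  unfold dens
  rw [norm_pt_sub_p hp hp1, norm_pt_sub_four]
  have h7 : Real.exp l = 4 * rh l := by unfold rh; ring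
  have h8 : Real.exp (2 * l) = (4 * rh l) ^ 2 := by
    rw [← h7, ← Real.exp_nat_mul]; norm_num
  have hr := rh_pos l
  rw [h8]
  by_cases hR : RR p l (gv l φ) = 0
  · rw [hR]; simp
  by_cases hD : Dv l φ = 0
  · rw [hD]; simp
  field_simp

lemma dens_V (l φ : ℝ) : dens 0 4 l φ = rh l / (Dv l φ / 4) := by
  unfold dens
  rw [norm_pt_sub_four]
  have h0 : ‖pt l φ - ((0 : ℝ) : ℂ)‖ = Real.exp l := by
    rw [Complex.ofReal_zero, sub_zero, norm_pt]
  have h7 : Real.exp l = 4 * rh l := by unfold rh; ring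
  have h8 : Real.exp (2 * l) = (4 * rh l) ^ 2 := by
    rw [← h7, ← Real.exp_nat_mul]; norm_num
  have hr := rh_pos l
  rw [h0, h8, h7]
  by_cases hD : Dv l φ = 0
  · rw [hD]; simp
  field_simp

/-! ### the energy density off the thin part -/

/-- the integrand of the model energy. -/
noncomputable def eden (fl fg b' : ℝ) (l φ : ℝ) : ℝ :=
  (fl + fg * b' * gvl l φ) ^ 2 + (fg * b' * gvp l φ) ^ 2

lemma eden_nonneg (fl fg b' l φ : ℝ) : 0 ≤ eden fl fg b' l φ := by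
  unfold eden; positivity

lemma eden_eq {l φ : ℝ} (h : Off l φ) (fl fg b' : ℝ) :
    eden fl fg b' l φ = fl ^ 2 + 2 * fl * (fg * b') * gvl l φ +
      (fg * b') ^ 2 * (Real.exp l / Dv l φ) := by
  unfold eden
  rw [← grad_sq h]
  ring

lemma eden_main_A {p : ℝ} (hp : 0 < p) (hp1 : p < 1) {l φ : ℝ} (h : Off l φ) :
    eden (FAl p l (gv l φ)) (FAg p l (gv l φ)) 1 l φ = dens 0 (4 * p) l φ := by
  have hg := gv_pos h
  have hk := key_A hp hp1 l hg
  have hR := RR_pos hp hp1 l hg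
  have hs := sinh_FA_pos hp hp1 l hg
  have hr := rh_pos l
  have hD := Dv_pos h
  have h5 := cosh_gv_sub l φ
  have h6 := sinh_gv l φ
  have h7 : Real.exp l = 4 * rh l := by unfold rh; ring
  rw [eden_eq h, dens_A hp hp1, mul_one]
  unfold FAl FAg gvl
  rw [h5, h7, ← h6]
  have h8 : Real.cosh (gv l φ) = Dv l φ / 4 + rh l := by linarith
  field_simp
  rw [← hk, h8]
  ring

lemma eden_main_B {p : ℝ} (hp : 0 < p) (hp1 : p < 1) {l φ : ℝ} (h : Off l φ) :
    eden (FBl p l (gv l φ)) (FBg p l (gv l φ)) 1 l φ = dens (4 * p) 4 l φ := by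
  have hg := gv_pos h
  have hk := key_B hp hp1 l hg
  have hR := RR_pos hp hp1 l hg
  have hs := sinh_FB_pos hp hp1 l hg
  have hr := rh_pos l
  have hD := Dv_pos h
  have h5 := cosh_gv_sub l φ
  have h6 := sinh_gv l φ
  have h7 : Real.exp l = 4 * rh l := by unfold rh; ring
  rw [eden_eq h, dens_B hp hp1, mul_one]
  unfold FBl FBg gvl
  rw [h7, ← h6]
  have h8 : Real.cosh (gv l φ) = Dv l φ / 4 + rh l := by linarith
  rw [h5] at hk
  field_simp
  rw [h8] at hk ⊢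
  linear_combination (4 * rh l) * hk

/-! ### the thin part -/

lemma RR_mono {p : ℝ} (hp : 0 < p) (hp1 : p < 1) (l : ℝ) {y b : ℝ} (hy : 0 ≤ y) (hyb : y ≤ b)
    (hC : rh l ≤ Real.cosh y) : RR p l y ≤ RR p l b := by
  have h1 := RR_sq' hp hp1 l y
  have h2 := RR_sq' hp hp1 l b
  have hCC : Real.cosh y ≤ Real.cosh b := by
    rw [Real.cosh_le_cosh, abs_of_nonneg hy, abs_of_nonneg (hy.trans hyb)]
    exact hyb
  have h3 : RR p l y ^ 2 ≤ RR p l b ^ 2 := by
    rw [h1, h2]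
    nlinarith [mul_nonneg (mul_nonneg hp.le (sub_nonneg.2 hCC))
      (by linarith : 0 ≤ Real.cosh b + Real.cosh y - 2 * rh l)]
  exact (pow_le_pow_iff_left₀ (Real.sqrt_nonneg _) (Real.sqrt_nonneg _) two_ne_zero).1 h3

lemma eden_le {l φ : ℝ} (h : Off l φ) (fl fg : ℝ) {b' : ℝ} (hb0 : 0 ≤ b') (hb1 : b' ≤ 1) :
    eden fl fg b' l φ ≤ 2 * fl ^ 2 + 2 * fg ^ 2 * (rh l / (Dv l φ / 4)) := by
  have hD := Dv_pos h
  have hg := grad_sq h
  have h7 : Real.exp l = 4 * rh l := by unfold rh; ring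
  have h8 : rh l / (Dv l φ / 4) = gvl l φ ^ 2 + gvp l φ ^ 2 := by
    rw [hg, h7]; field_simp
  rw [h8]
  unfold eden
  have hb2 : b' ^ 2 ≤ 1 := by nlinarith
  have h9 : (fg * b') ^ 2 ≤ fg ^ 2 := by
    rw [mul_pow]; nlinarith [sq_nonneg fg]
  have h10 := mul_le_mul_of_nonneg_right h9
    (add_nonneg (sq_nonneg (gvl l φ)) (sq_nonneg (gvp l φ)))
  nlinarith [sq_nonneg (fl - fg * b' * gvl l φ), sq_nonneg (fg * b' * gvp l φ), h10]

/-- the sum of the three densities. -/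
noncomputable def dsum (p l φ : ℝ) : ℝ := dens 0 (4 * p) l φ + dens (4 * p) 4 l φ + dens 0 4 l φ

lemma dsum_nonneg (p l φ : ℝ) : 0 ≤ dsum p l φ := by
  unfold dsum
  have h1 := dens_nonneg 0 (4 * p) l φ
  have h2 := dens_nonneg (4 * p) 4 l φ
  have h3 := dens_nonneg 0 4 l φ
  linarith

/-- the constant of the thin part. -/
noncomputable def Kth (p ρ : ℝ) : ℝ := 2 + 8 / (1 - p) * (1 / ρ ^ 2 + 1 / ρ + 1)

lemma thin_A {p : ℝ} (hp : 0 < p) (hp1 : p < 1) {l φ b b' ρ : ℝ} (h : Off l φ)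
    (hb : gv l φ ≤ b) (hb2 : Real.cosh b ≤ 2) (h0 : 0 ≤ b') (h1 : b' ≤ 1) (hρ : 0 < ρ)
    (hρ2 : ρ ≤ rh l) :
    eden (FAl p l b) (FAg p l b) b' l φ ≤ Kth p ρ * dsum p l φ := by
  have hg := gv_pos h
  have hbp : 0 < b := hg.trans_le hb
  have hq : 0 < 1 - p := by linarith
  have hr := rh_pos l
  have hD := Dv_pos h
  have hσ : 0 < Dv l φ / 4 := by positivity
  have h5 := cosh_gv_sub l φ
  have hCy : rh l ≤ Real.cosh (gv l φ) := by linarith
  have hCC : Real.cosh (gv l φ) ≤ Real.cosh b := by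
    rw [Real.cosh_le_cosh, abs_of_nonneg hg.le, abs_of_nonneg hbp.le]
    exact hb
  have hRy := RR_pos hp hp1 l hg
  have hRb := RR_pos hp hp1 l hbp
  have hRR := RR_mono hp hp1 l hg.le hb hCy
  have e1 := eden_le h (FAl p l b) (FAg p l b) h0 h1
  have e2 := FAl_sq_le hp hp1 l hbp
  have e3 := FAg_sq_le hp hp1 l hbp
  have dA := dens_A hp hp1 l φ
  have dB := dens_B hp hp1 l φ
  have nA := dens_nonneg 0 (4 * p) l φ
  have nB := dens_nonneg (4 * p) 4 l φ
  have nV := dens_nonneg 0 4 l φ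
  have f2 : rh l / RR p l b ≤ dens 0 (4 * p) l φ := by
    rw [dA]; exact div_le_div_of_nonneg_left hr.le hRy hRR
  have f3 : p / (1 - p) * ((Real.cosh b - rh l) ^ 2 / (rh l * RR p l b)) * (rh l / (Dv l φ / 4)) ≤
      4 / (1 - p) * (1 / ρ ^ 2) * dens (4 * p) 4 l φ := by
    have g1 : (Real.cosh b - rh l) ^ 2 ≤ 4 := by nlinarith
    have g2 : (Real.cosh b - rh l) ^ 2 / (rh l * RR p l b) * (rh l / (Dv l φ / 4)) ≤
        4 / (RR p l (gv l φ) * (Dv l φ / 4)) := by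
      have : (Real.cosh b - rh l) ^ 2 / (rh l * RR p l b) * (rh l / (Dv l φ / 4)) =
          (Real.cosh b - rh l) ^ 2 / (RR p l b * (Dv l φ / 4)) := by
        field_simp
      rw [this]
      apply div_le_div₀ (by norm_num) g1 (by positivity)
      exact mul_le_mul_of_nonneg_right hRR hσ.le
    have g3 : 4 / (RR p l (gv l φ) * (Dv l φ / 4)) ≤ 4 * (1 / ρ ^ 2) * dens (4 * p) 4 l φ := by
      rw [dB]
      have hρρ : ρ ^ 2 ≤ rh l ^ 2 := by nlinarith
      have : 4 * (1 / ρ ^ 2) * (rh l ^ 2 / (RR p l (gv l φ) * (Dv l φ / 4))) =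
          4 * (rh l ^ 2 / ρ ^ 2) / (RR p l (gv l φ) * (Dv l φ / 4)) := by
        field_simp
      rw [this]
      apply div_le_div_of_nonneg_right _ (by positivity)
      have : 1 ≤ rh l ^ 2 / ρ ^ 2 := by
        rw [le_div_iff₀ (by positivity)]; linarith
      linarith
    have g4 : p / (1 - p) ≤ 1 / (1 - p) := by
      apply div_le_div_of_nonneg_right hp1.le hq.le
    calc p / (1 - p) * ((Real.cosh b - rh l) ^ 2 / (rh l * RR p l b)) * (rh l / (Dv l φ / 4))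
        = p / (1 - p) * ((Real.cosh b - rh l) ^ 2 / (rh l * RR p l b) * (rh l / (Dv l φ / 4))) := by
          ring
      _ ≤ 1 / (1 - p) * (4 * (1 / ρ ^ 2) * dens (4 * p) 4 l φ) := by
          apply mul_le_mul g4 (g2.trans g3) (by positivity) (by positivity)
      _ = 4 / (1 - p) * (1 / ρ ^ 2) * dens (4 * p) 4 l φ := by ring
  have e4 := mul_le_mul_of_nonneg_right e3 (by positivity : 0 ≤ rh l / (Dv l φ / 4))
  have e5 : eden (FAl p l b) (FAg p l b) b' l φ ≤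
      2 * dens 0 (4 * p) l φ + 8 / (1 - p) * (1 / ρ ^ 2) * dens (4 * p) 4 l φ := by
    calc _ ≤ _ := e1
      _ ≤ 2 * dens 0 (4 * p) l φ + 2 * (4 / (1 - p) * (1 / ρ ^ 2) * dens (4 * p) 4 l φ) := by
          nlinarith [e2, e4, f2, f3]
      _ = _ := by ring
  refine e5.trans ?_
  unfold Kth dsum
  have k1 : 0 ≤ 8 / (1 - p) * (1 / ρ ^ 2) := by positivity
  have k2 : 0 ≤ 8 / (1 - p) * (1 / ρ + 1) := by positivity
  nlinarith [mul_nonneg k1 nA, mul_nonneg k1 nV, mul_nonneg k2 nA, mul_nonneg k2 nB,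
    mul_nonneg k2 nV]

lemma thin_B {p : ℝ} (hp : 0 < p) (hp1 : p < 1) {l φ b b' ρ : ℝ} (h : Off l φ)
    (hb : gv l φ ≤ b) (hb2 : Real.cosh b ≤ 2) (h0 : 0 ≤ b') (h1 : b' ≤ 1) (hρ : 0 < ρ)
    (hρ2 : ρ ≤ rh l) :
    eden (FBl p l b) (FBg p l b) b' l φ ≤ Kth p ρ * dsum p l φ := by
  have hg := gv_pos h
  have hbp : 0 < b := hg.trans_le hb
  have hq : 0 < 1 - p := by linarith
  have hr := rh_pos l
  have hD := Dv_pos h
  have hσ : 0 < Dv l φ / 4 := by positivity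
  have h5 := cosh_gv_sub l φ
  have hCy : rh l ≤ Real.cosh (gv l φ) := by linarith
  have hCC : Real.cosh (gv l φ) ≤ Real.cosh b := by
    rw [Real.cosh_le_cosh, abs_of_nonneg hg.le, abs_of_nonneg hbp.le]
    exact hb
  have hCb : rh l < Real.cosh b := by linarith
  have hRy := RR_pos hp hp1 l hg
  have hRb := RR_pos hp hp1 l hbp
  have hRR := RR_mono hp hp1 l hg.le hb hCy
  have e1 := eden_le h (FBl p l b) (FBg p l b) h0 h1
  have e2 := FBl_sq_le hp hp1 l hbp hCb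
  have e3 := FBg_sq_le hp hp1 l hbp hCb
  have dB := dens_B hp hp1 l φ
  have dV := dens_V l φ
  have nA := dens_nonneg 0 (4 * p) l φ
  have nB := dens_nonneg (4 * p) 4 l φ
  have nV := dens_nonneg 0 4 l φ
  have f2 : rh l ^ 2 / (RR p l b * (Real.cosh b - rh l)) ≤ dens (4 * p) 4 l φ := by
    rw [dB]
    apply div_le_div_of_nonneg_left (by positivity) (by positivity)
    apply mul_le_mul hRR (by linarith) hσ.le hRb.le
  have f3 : 1 / (1 - p) * (1 + (Real.cosh b - rh l) / RR p l b) * (rh l / (Dv l φ / 4)) ≤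
      1 / (1 - p) * dens 0 4 l φ + 2 / (1 - p) * (1 / ρ) * dens (4 * p) 4 l φ := by
    have g1 : Real.cosh b - rh l ≤ 2 := by linarith
    have g2 : (Real.cosh b - rh l) / RR p l b * (rh l / (Dv l φ / 4)) ≤
        2 * (rh l / (RR p l (gv l φ) * (Dv l φ / 4))) := by
      have : (Real.cosh b - rh l) / RR p l b * (rh l / (Dv l φ / 4)) =
          (Real.cosh b - rh l) * (rh l / (RR p l b * (Dv l φ / 4))) := by
        field_simp
      rw [this]
      apply mul_le_mul g1 _ (by positivity) (by norm_num)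
      apply div_le_div_of_nonneg_left hr.le (by positivity)
      exact mul_le_mul_of_nonneg_right hRR hσ.le
    have g3 : rh l / (RR p l (gv l φ) * (Dv l φ / 4)) ≤ 1 / ρ * dens (4 * p) 4 l φ := by
      rw [dB]
      have : 1 / ρ * (rh l ^ 2 / (RR p l (gv l φ) * (Dv l φ / 4))) =
          (rh l * (rh l / ρ)) / (RR p l (gv l φ) * (Dv l φ / 4)) := by
        field_simp
      rw [this]
      apply div_le_div_of_nonneg_right _ (by positivity)
      have : 1 ≤ rh l / ρ := by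
        rw [le_div_iff₀ hρ]; linarith
      nlinarith
    rw [← dV] at g2 ⊢
    have g5 : (Real.cosh b - rh l) / RR p l b * dens 0 4 l φ ≤
        2 * (1 / ρ * dens (4 * p) 4 l φ) := by
      rw [← dV] at *
      linarith
    have g6 := mul_le_mul_of_nonneg_left g5 (by positivity : 0 ≤ 1 / (1 - p))
    calc 1 / (1 - p) * (1 + (Real.cosh b - rh l) / RR p l b) * dens 0 4 l φ
        = 1 / (1 - p) * dens 0 4 l φ +
            1 / (1 - p) * ((Real.cosh b - rh l) / RR p l b * dens 0 4 l φ) := by ring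
      _ ≤ 1 / (1 - p) * dens 0 4 l φ + 1 / (1 - p) * (2 * (1 / ρ * dens (4 * p) 4 l φ)) := by
          linarith
      _ = _ := by ring
  have e4 := mul_le_mul_of_nonneg_right e3 (by positivity : 0 ≤ rh l / (Dv l φ / 4))
  have e5 : eden (FBl p l b) (FBg p l b) b' l φ ≤
      2 * dens (4 * p) 4 l φ + (2 / (1 - p) * dens 0 4 l φ +
        4 / (1 - p) * (1 / ρ) * dens (4 * p) 4 l φ) := by
    calc _ ≤ _ := e1
      _ ≤ 2 * dens (4 * p) 4 l φ + 2 * (1 / (1 - p) * dens 0 4 l φ +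
            2 / (1 - p) * (1 / ρ) * dens (4 * p) 4 l φ) := by
          nlinarith [e2, e4, f2, f3]
      _ = _ := by ring
  refine e5.trans ?_
  unfold Kth dsum
  have q1 : 0 ≤ 1 / (1 - p) := by positivity
  have q2 : 0 ≤ 1 / (1 - p) * (1 / ρ) := by positivity
  have q3 : 0 ≤ 1 / (1 - p) * (1 / ρ ^ 2) := by positivity
  have r1 : 2 / (1 - p) = 2 * (1 / (1 - p)) := by ring
  have r2 : 4 / (1 - p) * (1 / ρ) = 4 * (1 / (1 - p) * (1 / ρ)) := by ring
  have r3 : 8 / (1 - p) * (1 / ρ ^ 2 + 1 / ρ + 1) = 8 * (1 / (1 - p) * (1 / ρ ^ 2)) +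
      8 * (1 / (1 - p) * (1 / ρ)) + 8 * (1 / (1 - p)) := by ring
  rw [r1, r2, r3]
  nlinarith [mul_nonneg q1 nA, mul_nonneg q1 nB, mul_nonneg q1 nV, mul_nonneg q2 nA,
    mul_nonneg q2 nB, mul_nonneg q2 nV, mul_nonneg q3 nA, mul_nonneg q3 nB, mul_nonneg q3 nV]

end Pool.Agent.H38.EH
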