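import Pool.Agent.H38.EH.MEc
import Pool.Agent.H49.EH.YV
import Pool.Agent.H10.EH.FD

/-!
# Model energy of the truncated test functions (MP_ff60c2_an)
-/

open MeasureTheory Set Filter Topology

set_option autoImplicit false

namespace Pool.Agent.H38.EH

open Pool.EH Pool.Agent.H49.EH
open Pool.Agent.H23.EH (d1 d2)
open Pool.Agent.H24.EH (yV En ModelEnergy)

/-! ### thin bounds uniform in `l` -/

lemma RR_ge {p : ℝ} (hp : 0 < p) (hp1 : p < 1) {l b : ℝ} (hb : 0 < b) (hr : rh l ≤ p / 2) :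
    p / 2 ≤ RR p l b := by
  have hR := RR_pos hp hp1 l hb
  have h1 := RR_sq' hp hp1 l b
  have hC : 1 ≤ Real.cosh b := Real.one_le_cosh b
  have h2 : (p / 2) ^ 2 ≤ RR p l b ^ 2 := by
    rw [h1]
    nlinarith [mul_nonneg (mul_nonneg hp.le (sub_nonneg.2 hC))
      (by linarith : 0 ≤ Real.cosh b + 1 - 2 * rh l), rh_pos l]
  exact (pow_le_pow_iff_left₀ (by positivity) hR.le two_ne_zero).1 h2

lemma FAg_sq_le' {p : ℝ} (hp : 0 < p) (hp1 : p < 1) (l : ℝ) {g : ℝ} (hg : 0 < g) :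
    FAg p l g ^ 2 ≤ p * ((Real.cosh g - rh l) ^ 2 / RR p l g ^ 2) := by
  have hR := RR_pos hp hp1 l hg
  have hs := sinh_FA_pos hp hp1 l hg
  have hr := rh_pos l
  have hq : 0 < 1 - p := by linarith
  have h1 := rel_A hp hp1 l hg
  have h2 : Real.cosh g ≤ Real.cosh (FA p l g) := by
    rw [cosh_FA hp hp1 l hg, le_div_iff₀ hp]
    have h3 := RR_sq hp hp1 l g
    by_contra h4
    push Not at h4
    have h5 : RR p l g < Real.cosh g * p - rh l := by linarith
    have h6 : RR p l g ^ 2 < (Real.cosh g * p - rh l) ^ 2 := by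
      apply pow_lt_pow_left₀ h5 hR.le two_ne_zero
    have h7 : 0 ≤ p * (1 - p) * Real.sinh g ^ 2 := by positivity
    nlinarith
  have h3 : Real.sinh g ^ 2 ≤ p * Real.sinh (FA p l g) ^ 2 := by
    have : 0 ≤ 2 * rh l * (Real.cosh (FA p l g) - Real.cosh g) :=
      mul_nonneg (by positivity) (by linarith)
    linarith
  unfold FAg
  rw [← mul_div_assoc, div_pow, mul_pow, mul_pow, div_le_div_iff₀ (by positivity) (by positivity)]
  have h4 := mul_le_mul_of_nonneg_left h3
    (mul_nonneg (sq_nonneg (Real.cosh g - rh l)) (sq_nonneg (RR p l g)))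
  nlinarith [h4]

/-- the uniform constant. -/
noncomputable def Ku (p : ℝ) : ℝ := Kth p (p / 2) + 32 / p + 2 / (1 - p) * (1 + 4 / p) + 2

lemma Kth_nonneg {p ρ : ℝ} (hp1 : p < 1) (hρ : 0 < ρ) : 0 ≤ Kth p ρ := by
  unfold Kth
  have : 0 < 1 - p := by linarith
  positivity

lemma Ku_pos {p : ℝ} (hp : 0 < p) (hp1 : p < 1) : 0 < Ku p := by
  unfold Ku
  have := Kth_nonneg hp1 (show 0 < p / 2 by positivity)
  have : 0 < 1 - p := by linarith
  positivity

lemma thinU_A {p : ℝ} (hp : 0 < p) (hp1 : p < 1) {l φ b b' : ℝ} (h : Off l φ)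
    (hb : gv l φ ≤ b) (hb2 : Real.cosh b ≤ 2) (h0 : 0 ≤ b') (h1 : b' ≤ 1) :
    eden (FAl p l b) (FAg p l b) b' l φ ≤ Ku p * dsum p l φ := by
  have hq : 0 < 1 - p := by linarith
  have hKth := Kth_nonneg hp1 (show 0 < p / 2 by positivity)
  have hsum := dsum_nonneg p l φ
  have k1 : 0 ≤ 32 / p := by positivity
  have k2 : 0 ≤ 2 / (1 - p) * (1 + 4 / p) := by positivity
  rcases le_or_gt (p / 2) (rh l) with hc | hc
  · refine (thin_A hp hp1 h hb hb2 h0 h1 (by positivity) hc).trans ?_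
    unfold Ku
    nlinarith [mul_nonneg k1 hsum, mul_nonneg k2 hsum]
  · have hg := gv_pos h
    have hbp : 0 < b := hg.trans_le hb
    have hr := rh_pos l
    have hD := Dv_pos h
    have hσ : 0 < Dv l φ / 4 := by positivity
    have h5 := cosh_gv_sub l φ
    have hCy : rh l ≤ Real.cosh (gv l φ) := by linarith
    have hRy := RR_pos hp hp1 l hg
    have hRb := RR_pos hp hp1 l hbp
    have hRR := RR_mono hp hp1 l hg.le hb hCy
    have hRb2 := RR_ge hp hp1 hbp hc.le
    have e1 := eden_le h (FAl p l b) (FAg p l b) h0 h1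
    have e2 := FAl_sq_le hp hp1 l hbp
    have e3 := FAg_sq_le' hp hp1 l hbp
    have dA := dens_A hp hp1 l φ
    have dV := dens_V l φ
    have nA := dens_nonneg 0 (4 * p) l φ
    have nB := dens_nonneg (4 * p) 4 l φ
    have nV := dens_nonneg 0 4 l φ
    have f2 : rh l / RR p l b ≤ dens 0 (4 * p) l φ := by
      rw [dA]; exact div_le_div_of_nonneg_left hr.le hRy hRR
    have hC1 : 1 ≤ Real.cosh b := Real.one_le_cosh b
    have g1 : (Real.cosh b - rh l) ^ 2 ≤ 4 := by nlinarith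
    have f3 : FAg p l b ^ 2 ≤ 16 / p := by
      refine e3.trans ?_
      have g2 : (p / 2) ^ 2 ≤ RR p l b ^ 2 := pow_le_pow_left₀ (by positivity) hRb2 2
      have g3 : (Real.cosh b - rh l) ^ 2 / RR p l b ^ 2 ≤ 4 / (p / 2) ^ 2 :=
        div_le_div₀ (by norm_num) g1 (by positivity) g2
      calc p * ((Real.cosh b - rh l) ^ 2 / RR p l b ^ 2) ≤ p * (4 / (p / 2) ^ 2) :=
            mul_le_mul_of_nonneg_left g3 hp.le
        _ = 16 / p := by field_simp; norm_num
    rw [← dV] at e1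
    have e5 : eden (FAl p l b) (FAg p l b) b' l φ ≤
        2 * dens 0 (4 * p) l φ + 32 / p * dens 0 4 l φ := by
      have := mul_le_mul_of_nonneg_right f3 nV
      have h32 : 32 / p = 2 * (16 / p) := by ring
      rw [h32]
      nlinarith
    refine e5.trans ?_
    unfold Ku dsum
    nlinarith [mul_nonneg k1 nA, mul_nonneg k1 nB, mul_nonneg k2 nA, mul_nonneg k2 nB,
      mul_nonneg k2 nV, mul_nonneg hKth nA, mul_nonneg hKth nB, mul_nonneg hKth nV]

lemma thinU_B {p : ℝ} (hp : 0 < p) (hp1 : p < 1) {l φ b b' : ℝ} (h : Off l φ)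
    (hb : gv l φ ≤ b) (hb2 : Real.cosh b ≤ 2) (h0 : 0 ≤ b') (h1 : b' ≤ 1) :
    eden (FBl p l b) (FBg p l b) b' l φ ≤ Ku p * dsum p l φ := by
  have hq : 0 < 1 - p := by linarith
  have hKth := Kth_nonneg hp1 (show 0 < p / 2 by positivity)
  have hsum := dsum_nonneg p l φ
  have k1 : 0 ≤ 32 / p := by positivity
  have k2 : 0 ≤ 2 / (1 - p) * (1 + 4 / p) := by positivity
  rcases le_or_gt (p / 2) (rh l) with hc | hc
  · refine (thin_B hp hp1 h hb hb2 h0 h1 (by positivity) hc).trans ?_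
    unfold Ku
    nlinarith [mul_nonneg k1 hsum, mul_nonneg k2 hsum]
  · have hg := gv_pos h
    have hbp : 0 < b := hg.trans_le hb
    have hr := rh_pos l
    have hD := Dv_pos h
    have hσ : 0 < Dv l φ / 4 := by positivity
    have h5 := cosh_gv_sub l φ
    have hCy : rh l ≤ Real.cosh (gv l φ) := by linarith
    have hCC : Real.cosh (gv l φ) ≤ Real.cosh b := by
      rw [Real.cosh_le_cosh, abs_of_nonneg hg.le, abs_of_nonneg hbp.le]
      exact hb
    have hCb : rh l < Real.cosh b := by linarith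
    have hRy := RR_pos hp hp1 l hg
    have hRb := RR_pos hp hp1 l hbp
    have hRR := RR_mono hp hp1 l hg.le hb hCy
    have hRb2 := RR_ge hp hp1 hbp hc.le
    have e1 := eden_le h (FBl p l b) (FBg p l b) h0 h1
    have e2 := FBl_sq_le hp hp1 l hbp hCb
    have e3 := FBg_sq_le hp hp1 l hbp hCb
    have dB := dens_B hp hp1 l φ
    have dV := dens_V l φ
    have nA := dens_nonneg 0 (4 * p) l φ
    have nB := dens_nonneg (4 * p) 4 l φ
    have nV := dens_nonneg 0 4 l φ
    have f2 : rh l ^ 2 / (RR p l b * (Real.cosh b - rh l)) ≤ dens (4 * p) 4 l φ := by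
      rw [dB]
      apply div_le_div_of_nonneg_left (by positivity) (by positivity)
      apply mul_le_mul hRR (by linarith) hσ.le hRb.le
    have f3 : FBg p l b ^ 2 ≤ 1 / (1 - p) * (1 + 4 / p) := by
      refine e3.trans ?_
      apply mul_le_mul_of_nonneg_left _ (by positivity)
      have g3 : (Real.cosh b - rh l) / RR p l b ≤ 2 / (p / 2) :=
        div_le_div₀ (by norm_num) (by linarith) (by positivity) hRb2
      have g4 : 2 / (p / 2) = 4 / p := by field_simp; norm_num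
      linarith
    rw [← dV] at e1
    have e5 : eden (FBl p l b) (FBg p l b) b' l φ ≤
        2 * dens (4 * p) 4 l φ + 2 / (1 - p) * (1 + 4 / p) * dens 0 4 l φ := by
      have := mul_le_mul_of_nonneg_right f3 nV
      have h32 : 2 / (1 - p) * (1 + 4 / p) = 2 * (1 / (1 - p) * (1 + 4 / p)) := by ring
      rw [h32]
      nlinarith
    refine e5.trans ?_
    unfold Ku dsum
    nlinarith [mul_nonneg k1 nA, mul_nonneg k1 nB, mul_nonneg k1 nV, mul_nonneg k2 nA,
      mul_nonneg k2 nB, mul_nonneg hKth nA, mul_nonneg hKth nB, mul_nonneg hKth nV]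

/-! ### measure theory -/

/-- the thin part carries no mass (after helper33's `thin_zero`, uniform on the left). -/
theorem thin_zero (L : ℝ) (f : ℝ × ℝ → ℝ)
    (hfT : IntegrableOn f (Iic L ×ˢ Ioc 0 (2 * Real.pi)))
    (hf0 : ∀ q, 0 ≤ f q) {ε : ℝ} (he : 0 < ε) :
    ∃ η0 > 0, ∀ η : ℝ, 0 < η → η < η0 →
      ∫ q in (Iic L ×ˢ Ioc 0 (2 * Real.pi)),
        (if gv q.1 q.2 < 3 * η then f q else 0) ≤ ε := by
  classical
  obtain ⟨T, hT⟩ : ∃ T : Set (ℝ × ℝ), T = Iic L ×ˢ Ioc 0 (2 * Real.pi) := ⟨_, rfl⟩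
  rw [← hT] at hfT ⊢
  have hTm : MeasurableSet T := by
    rw [hT]
    exact measurableSet_Iic.prod measurableSet_Ioc
  have hgm : Measurable (fun q : ℝ × ℝ => gv q.1 q.2) := continuous_gv.measurable
  have hpos : ∀ᵐ q ∂(volume.restrict T), 0 < gv q.1 q.2 := by
    have h1 : ∀ᵐ q : ℝ × ℝ ∂volume, q.2 ≠ 2 * Real.pi := by
      have h2 : (volume : Measure (ℝ × ℝ)) {q : ℝ × ℝ | q.2 = 2 * Real.pi} = 0 := by
        have h3 : {q : ℝ × ℝ | q.2 = 2 * Real.pi} = (Set.univ : Set ℝ) ×ˢ {2 * Real.pi} := by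
          ext q
          simp
        rw [h3, Measure.volume_eq_prod, Measure.prod_prod]
        simp
      rw [ae_iff]
      simpa using h2
    rw [ae_restrict_iff' hTm]
    filter_upwards [h1] with q hq hqT
    rw [hT] at hqT
    obtain ⟨_, h0, h2⟩ := hqT
    refine gv_pos (Or.inr ?_)
    have h3 : q.2 < 2 * Real.pi := lt_of_le_of_ne h2 hq
    have h4 : Real.cos q.2 ≠ 1 := by
      intro h
      rw [Real.cos_eq_one_iff_of_lt_of_lt (by linarith [Real.pi_pos]) h3] at h
      linarith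
    exact lt_of_le_of_ne (Real.cos_le_one _) h4
  have hlim : Tendsto (fun η : ℝ => ∫ q in T, (if gv q.1 q.2 < 3 * η then f q else 0))
      (𝓝[>] 0) (𝓝 (∫ q in T, (0 : ℝ))) := by
    refine tendsto_integral_filter_of_dominated_convergence (fun q => f q) ?_ ?_ hfT ?_
    · refine Eventually.of_forall (fun η => ?_)
      have hs : MeasurableSet {q : ℝ × ℝ | gv q.1 q.2 < 3 * η} :=
        measurableSet_lt hgm measurable_const
      have h := hfT.aestronglyMeasurable.indicator hs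
      refine h.congr (Eventually.of_forall (fun q => ?_))
      simp [Set.indicator]
    · refine Eventually.of_forall (fun η => Eventually.of_forall (fun q => ?_))
      by_cases h : gv q.1 q.2 < 3 * η
      · simp [h, abs_of_nonneg (hf0 q)]
      · simp [h, hf0 q]
    · filter_upwards [hpos] with q hq
      refine tendsto_const_nhds.congr' ?_
      have h1 : ∀ᶠ η : ℝ in 𝓝[>] 0, η < gv q.1 q.2 / 3 :=
        mem_nhdsWithin_of_mem_nhds (Iio_mem_nhds (by positivity))
      filter_upwards [h1] with η hη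
      rw [if_neg]
      linarith
  rw [integral_zero] at hlim
  have h1 := hlim.eventually (gt_mem_nhds he)
  obtain ⟨η0, hη0, h2⟩ := (mem_nhdsGT_iff_exists_Ioo_subset).1 h1
  exact ⟨η0, hη0, fun η h3 h4 => le_of_lt (h2 ⟨h3, h4⟩)⟩

lemma thin_integrable {L : ℝ} {f : ℝ × ℝ → ℝ}
    (hf : IntegrableOn f (Iic L ×ˢ Ioc 0 (2 * Real.pi))) (η : ℝ) :
    IntegrableOn (fun q : ℝ × ℝ => if gv q.1 q.2 < 3 * η then f q else 0)
      (Iic L ×ˢ Ioc 0 (2 * Real.pi)) := by
  have hgm : Measurable (fun q : ℝ × ℝ => gv q.1 q.2) := continuous_gv.measurable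
  have hs : MeasurableSet {q : ℝ × ℝ | gv q.1 q.2 < 3 * η} :=
    measurableSet_lt hgm measurable_const
  have h : IntegrableOn ({q : ℝ × ℝ | gv q.1 q.2 < 3 * η}.indicator f)
      (Iic L ×ˢ Ioc 0 (2 * Real.pi)) := hf.indicator hs
  refine h.congr (ae_of_all _ fun q => ?_)
  simp [Set.indicator]

/-- comparison of an iterated integral with a product integral; no measurability of `I`. -/
theorem iter_le {I : ℝ → ℝ → ℝ} {G : ℝ × ℝ → ℝ} {L : ℝ}
    (hG : IntegrableOn G (Iic L ×ˢ Ioc 0 (2 * Real.pi))) (hG0 : ∀ q, 0 ≤ G q)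
    (hI0 : ∀ l φ, 0 ≤ I l φ)
    (hIG : ∀ l φ, 0 < φ → φ < 2 * Real.pi → I l φ ≤ G (l, φ)) {l₁ : ℝ} (hl : l₁ ≤ L) :
    ∫ l in l₁..L, ∫ φ in (0 : ℝ)..2 * Real.pi, I l φ ≤
      ∫ q in Iic L ×ˢ Ioc 0 (2 * Real.pi), G q := by
  have hpi : (0 : ℝ) ≤ 2 * Real.pi := by positivity
  have hG' : Integrable G ((volume.restrict (Iic L)).prod
      (volume.restrict (Ioc 0 (2 * Real.pi)))) := by
    rw [Measure.prod_restrict, ← Measure.volume_eq_prod]
    exact hG
  have h1 : ∫ q in Iic L ×ˢ Ioc 0 (2 * Real.pi), G q =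
      ∫ l in Iic L, ∫ φ in Ioc 0 (2 * Real.pi), G (l, φ) := by
    rw [Measure.volume_eq_prod]
    apply setIntegral_prod
    rw [← Measure.volume_eq_prod]
    exact hG
  have hg : IntegrableOn (fun l => ∫ φ in Ioc 0 (2 * Real.pi), G (l, φ)) (Iic L) :=
    hG'.integral_prod_left
  have hsub : Ioc l₁ L ⊆ Iic L := fun x hx => hx.2
  rw [h1, intervalIntegral.integral_of_le hl]
  refine le_trans (integral_mono_of_nonneg (g := fun l => ∫ φ in Ioc 0 (2 * Real.pi), G (l, φ))
    (ae_of_all _ fun l => ?_) (hg.mono_set hsub) ?_) ?_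
  · exact intervalIntegral.integral_nonneg hpi fun φ _ => hI0 l φ
  · have h2 := hG'.prod_right_ae
    have h3 : ∀ᵐ l ∂(volume.restrict (Ioc l₁ L)),
        Integrable (fun φ => G (l, φ)) (volume.restrict (Ioc 0 (2 * Real.pi))) :=
      ae_restrict_of_ae_restrict_of_subset hsub h2
    filter_upwards [h3] with l hl2
    show ∫ φ in (0 : ℝ)..2 * Real.pi, I l φ ≤ _
    rw [intervalIntegral.integral_of_le hpi]
    apply integral_mono_of_nonneg (ae_of_all _ fun φ => hI0 l φ) hl2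
    rw [Measure.restrict_congr_set (Ioo_ae_eq_Ioc (a := (0 : ℝ)) (b := 2 * Real.pi)).symm]
    filter_upwards [ae_restrict_mem measurableSet_Ioo] with φ hφ
    exact hIG l φ hφ.1 hφ.2
  · apply setIntegral_mono_set hg
    · exact ae_of_all _ fun l => integral_nonneg fun φ => hG0 (l, φ)
    · exact hsub.eventuallyLE

end Pool.Agent.H38.EH
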